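import Mathlib

/-!
MP_6383d0_co: the chromatic number of `(P₄ + ℓP₁, K_k)`-free graphs.

`M k ℓ` is the least `n` such that every `(P₄ + ℓP₁, K_k)`-free graph is `n`-colourable.
Main points:
* `three`: triangle-free `(P₄ + 2P₁)`-free graphs are 3-colourable (otherwise every
  non-neighbourhood would be a complete blow-up of the five-cycle, which is impossible);
* `Col.split`, `binom_col`, `better`: `M_k(ℓ) ≤ M_{k-1}(ℓ) + M_k(ℓ-1)` and what follows from it;
* `step`: an induced `P₄` covers all vertices by four neighbourhoods, up to a set without `ℓ`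
  pairwise non-adjacent vertices;
* `local_ind`, `tri_col`: triangle-free graphs with bounded independence number, the method of
  Ajtai, Komlos and Szemeredi in the version of Shearer and Alon.
-/

set_option autoImplicit false
set_option linter.unusedSectionVars false

open Finset

namespace Pool.Agent.Results.MP_6383d0_co.ValuesAndGrowth

variable {V : Type*} [DecidableEq V] (G : SimpleGraph V) [DecidableRel G.Adj]

/-- independent set -/
def Ind (I : Finset V) : Prop := ∀ u ∈ I, ∀ v ∈ I, ¬ G.Adj u v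

/-- the set `S` can be properly coloured with `n` colours -/
def Col (S : Finset V) (n : ℕ) : Prop :=
  ∃ f : V → ℕ, (∀ v ∈ S, f v < n) ∧ ∀ u ∈ S, ∀ v ∈ S, G.Adj u v → f u ≠ f v

/-- no `k`-clique inside `S` -/
def KF (k : ℕ) (S : Finset V) : Prop := ∀ T ⊆ S, ¬ G.IsNClique k T

/-- independence number at most `m` inside `S` -/
def AL (S : Finset V) (m : ℕ) : Prop := ∀ I ⊆ S, Ind G I → I.card ≤ m

/-- neighbours of `v` inside `S` -/
def Nb (v : V) (S : Finset V) : Finset V := S.filter (G.Adj v)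

variable {G}

lemma mem_Nb {v : V} {S : Finset V} {u : V} : u ∈ Nb G v S ↔ u ∈ S ∧ G.Adj v u := by
  simp [Nb]

lemma Nb_sub (v : V) (S : Finset V) : Nb G v S ⊆ S := Finset.filter_subset _ _

lemma Col.sub {S T : Finset V} {n : ℕ} (h : Col G S n) (hT : T ⊆ S) : Col G T n := by
  obtain ⟨f, h1, h2⟩ := h
  exact ⟨f, fun v hv => h1 v (hT hv), fun u hu v hv => h2 u (hT hu) v (hT hv)⟩

lemma Col.mono {S : Finset V} {n m : ℕ} (h : Col G S n) (hm : n ≤ m) : Col G S m := by
  obtain ⟨f, h1, h2⟩ := h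
  exact ⟨f, fun v hv => lt_of_lt_of_le (h1 v hv) hm, h2⟩

lemma Col.union {S T : Finset V} {a b : ℕ} (h : Col G S a) (h' : Col G T b) :
    Col G (S ∪ T) (a + b) := by
  obtain ⟨f, h1, h2⟩ := h
  obtain ⟨g, h3, h4⟩ := h'
  refine ⟨fun v => if v ∈ S then f v else a + g v, ?_, ?_⟩
  · intro v hv
    by_cases hS : v ∈ S
    · simp only [hS, if_true]; have := h1 v hS; omega
    · simp only [hS, if_false]
      have := h3 v (by simpa [hS] using hv); omega
  · intro u hu v hv huv
    by_cases hS : u ∈ S <;> by_cases hS' : v ∈ S <;> simp only [hS, hS', if_true, if_false]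
    · exact h2 u hS v hS' huv
    · have := h1 u hS; omega
    · have := h1 v hS'; omega
    · have := h4 u (by simpa [hS] using hu) v (by simpa [hS'] using hv) huv
      omega

lemma Col.of_ind {S : Finset V} (h : Ind G S) : Col G S 1 :=
  ⟨fun _ => 0, fun _ _ => by simp, fun u hu v hv huv => absurd huv (h u hu v hv)⟩

lemma Col.empty : Col G ∅ 0 := ⟨fun _ => 0, by simp, by simp⟩

lemma Ind.sub {S T : Finset V} (h : Ind G S) (hT : T ⊆ S) : Ind G T :=
  fun u hu v hv => h u (hT hu) v (hT hv)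

lemma AL.sub {S T : Finset V} {m : ℕ} (h : AL G S m) (hT : T ⊆ S) : AL G T m :=
  fun I hI hI' => h I (hI.trans hT) hI'

lemma AL.mono {S : Finset V} {m m' : ℕ} (h : AL G S m) (hT : m ≤ m') : AL G S m' :=
  fun I hI hI' => (h I hI hI').trans hT

lemma KF.sub {S T : Finset V} {k : ℕ} (h : KF G k S) (hT : T ⊆ S) : KF G k T :=
  fun I hI => h I (hI.trans hT)

lemma KF.nb {S : Finset V} {k : ℕ} (h : KF G (k + 1) S) {v : V} (hv : v ∈ S) :
    KF G k (Nb G v S) := by
  intro T hT hc
  refine h (insert v T) ?_ ?_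
  · intro x hx
    rcases Finset.mem_insert.1 hx with rfl | hx
    · exact hv
    · exact Nb_sub _ _ (hT hx)
  · exact hc.insert (fun b hb => (mem_Nb.1 (hT hb)).2)

/-- greedy colouring -/
lemma Col.greedy (B : ℕ) : ∀ (S : Finset V), (∀ v ∈ S, (Nb G v S).card ≤ B) → Col G S (B + 1) := by
  intro S
  induction S using Finset.induction_on with
  | empty => intro _; exact ⟨fun _ => 0, by simp, by simp⟩
  | insert x S hx ih =>
    intro h
    obtain ⟨f, h1, h2⟩ := ih (by
      intro v hv
      refine le_trans (Finset.card_le_card ?_) (h v (Finset.mem_insert_of_mem hv))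
      intro u hu
      rw [mem_Nb] at hu ⊢
      exact ⟨Finset.mem_insert_of_mem hu.1, hu.2⟩)
    have hlt : ((Nb G x S).image f).card < (Finset.range (B + 1)).card := by
      rw [Finset.card_range]
      refine lt_of_le_of_lt Finset.card_image_le ?_
      have : (Nb G x S).card ≤ B := by
        refine le_trans (Finset.card_le_card ?_) (h x (Finset.mem_insert_self _ _))
        intro u hu
        rw [mem_Nb] at hu ⊢
        exact ⟨Finset.mem_insert_of_mem hu.1, hu.2⟩
      omega
    obtain ⟨c, hc, hc'⟩ := Finset.exists_mem_notMem_of_card_lt_card hlt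
    have hcB : c < B + 1 := Finset.mem_range.1 hc
    refine ⟨fun v => if v = x then c else f v, ?_, ?_⟩
    · intro v hv
      by_cases hvx : v = x
      · simp [hvx, hcB]
      · simp only [hvx, if_false]
        exact h1 v (by simpa [hvx] using hv)
    · intro u hu v hv huv
      by_cases hux : u = x <;> by_cases hvx : v = x <;> simp only [hux, hvx, if_true, if_false]
      · subst hux; subst hvx; exact absurd huv (G.loopless.irrefl _)
      · intro hcf
        apply hc'
        rw [Finset.mem_image]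
        refine ⟨v, ?_, hcf.symm⟩
        rw [mem_Nb]
        exact ⟨by simpa [hvx] using hv, hux ▸ huv⟩
      · intro hcf
        apply hc'
        rw [Finset.mem_image]
        refine ⟨u, ?_, hcf⟩
        rw [mem_Nb]
        exact ⟨by simpa [hux] using hu, hvx ▸ huv.symm⟩
      · exact h2 u (by simpa [hux] using hu) v (by simpa [hvx] using hv) huv

lemma Col.card_le {S : Finset V} {q m : ℕ} (h : Col G S q) (hm : AL G S m) : S.card ≤ q * m := by
  obtain ⟨f, h1, h2⟩ := h
  have : S.card = ∑ c ∈ Finset.range q, (S.filter (fun v => f v = c)).card :=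
    Finset.card_eq_sum_card_fiberwise (fun v hv => Finset.mem_coe.2 (Finset.mem_range.2 (h1 v hv)))
  rw [this]
  refine (Finset.sum_le_card_nsmul _ _ m ?_).trans (by simp)
  intro c _
  refine hm _ (Finset.filter_subset _ _) ?_
  intro u hu v hv huv
  rw [Finset.mem_filter] at hu hv
  exact h2 u hu.1 v hv.1 huv (hu.2.trans hv.2.symm)

/-- Ramsey bound -/
lemma ramsey : ∀ (N k m : ℕ), k + m ≤ N → ∀ S : Finset V, KF G (k + 1) S → AL G S m →
    S.card + 1 ≤ (m + k).choose k := by
  intro N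
  induction N with
  | zero =>
    intro k m hkm S hK hA
    have hk : k = 0 := by omega
    subst hk
    have : S = ∅ := by
      rw [Finset.eq_empty_iff_forall_notMem]
      intro x hx
      exact hK {x} (by simpa using hx) (by simp [SimpleGraph.isNClique_iff])
    simp [this]
  | succ N ih =>
    intro k m hkm S hK hA
    by_cases hS : S = ∅
    · simp only [hS, Finset.card_empty, zero_add]
      exact Nat.choose_pos (by omega)
    · obtain ⟨v, hv⟩ := Finset.nonempty_iff_ne_empty.2 hS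
      have hk : k ≠ 0 := by
        rintro rfl
        exact hK {v} (by simpa using hv) (by simp [SimpleGraph.isNClique_iff])
      have hm : m ≠ 0 := by
        rintro rfl
        have := hA {v} (by simpa using hv) (by
          intro a ha b hb
          simp only [Finset.mem_singleton] at ha hb
          subst ha; subst hb
          exact G.loopless.irrefl _)
        simp at this
      obtain ⟨k, rfl⟩ := Nat.exists_eq_succ_of_ne_zero hk
      obtain ⟨m, rfl⟩ := Nat.exists_eq_succ_of_ne_zero hm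
      have e1 := ih k (m + 1) (by omega) (Nb G v S) (hK.nb hv) (hA.sub (Nb_sub _ _))
      have e2 := ih (k + 1) m (by omega) ((S.erase v).filter (fun u => ¬ G.Adj v u))
        (hK.sub ((Finset.filter_subset _ _).trans (Finset.erase_subset _ _))) (by
          intro I hI hI'
          have hvI : v ∉ I := fun hv' => by simpa using hI hv'
          have := hA (insert v I) (by
            intro x hx
            rcases Finset.mem_insert.1 hx with rfl | hx
            · exact hv
            · have := hI hx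
              simp only [Finset.mem_filter, Finset.mem_erase] at this
              exact this.1.2) (by
            intro a ha b hb hab
            rcases Finset.mem_insert.1 ha with ha' | ha'
            · rcases Finset.mem_insert.1 hb with hb' | hb'
              · rw [ha', hb'] at hab; exact G.loopless.irrefl _ hab
              · have := hI hb'
                simp only [Finset.mem_filter, Finset.mem_erase] at this
                exact this.2 (ha' ▸ hab)
            · rcases Finset.mem_insert.1 hb with hb' | hb'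
              · have := hI ha'
                simp only [Finset.mem_filter, Finset.mem_erase] at this
                exact this.2 (hb' ▸ hab.symm)
              · exact hI' a ha' b hb' hab)
          rw [Finset.card_insert_of_notMem hvI] at this
          omega)
      have e3 : S.card = (Nb G v S).card + ((S.erase v).filter (fun u => ¬ G.Adj v u)).card + 1 := by
        have h1 := Finset.card_erase_add_one hv
        have h2 := Finset.card_filter_add_card_filter_not (s := S.erase v) (fun u => G.Adj v u)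
        have h3 : (S.erase v).filter (fun u => G.Adj v u) = Nb G v S := by
          ext u
          simp only [Finset.mem_filter, Finset.mem_erase, mem_Nb]
          constructor
          · rintro ⟨⟨_, h⟩, h'⟩; exact ⟨h, h'⟩
          · rintro ⟨h, h'⟩
            exact ⟨⟨fun e => G.loopless.irrefl v (e ▸ h'), h⟩, h'⟩
        rw [h3] at h2
        omega
      have e4 : (m + 1 + (k + 1)).choose (k + 1) = (m + 1 + k).choose k + (m + (k + 1)).choose (k + 1) := by
        have : m + 1 + (k + 1) = (m + 1 + k) + 1 := by ring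
        rw [this, Nat.choose_succ_succ]
        congr 2
        ring
      rw [Nat.succ_eq_add_one, Nat.succ_eq_add_one, e4]
      omega


lemma sum_card_powerset (F : Finset V) :
    2 * ∑ A ∈ F.powerset, A.card = F.card * 2 ^ F.card := by
  induction F using Finset.induction_on with
  | empty => simp
  | insert x F hx ih =>
    rw [Finset.sum_powerset_insert hx, Finset.card_insert_of_notMem hx]
    have : ∑ t ∈ F.powerset, (insert x t).card = ∑ t ∈ F.powerset, (t.card + 1) := by
      refine Finset.sum_congr rfl ?_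
      intro t ht
      rw [Finset.card_insert_of_notMem]
      intro h
      exact hx (Finset.mem_powerset.1 ht h)
    rw [this, Finset.sum_add_distrib]
    simp only [Finset.sum_const, Finset.card_powerset, smul_eq_mul, mul_one]
    rw [pow_succ]
    nlinarith [ih]

lemma arith (d t x : ℕ) (hd : 4 ^ t ≤ d) : t * (2 ^ x + 1) ≤ 4 * d + 2 * (x * 2 ^ x) := by
  have h2 : t < 2 ^ t := Nat.lt_two_pow_self
  have h4 : (4 : ℕ) ^ t = 2 ^ t * 2 ^ t := by rw [← mul_pow]; norm_num
  rcases le_total x t with h | h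
  · have : (2 : ℕ) ^ x ≤ 2 ^ t := Nat.pow_le_pow_right (by norm_num) h
    have h1 : 1 ≤ (2 : ℕ) ^ t := Nat.one_le_two_pow
    calc t * (2 ^ x + 1) ≤ 2 ^ t * (2 ^ t + 2 ^ t) := Nat.mul_le_mul h2.le (by omega)
      _ = 2 * 4 ^ t := by rw [h4]; ring
      _ ≤ 4 * d + 2 * (x * 2 ^ x) := by omega
  · have h1 : 1 ≤ (2 : ℕ) ^ x := Nat.one_le_two_pow
    calc t * (2 ^ x + 1) ≤ x * (2 ^ x + 2 ^ x) := Nat.mul_le_mul h (by omega)
      _ = 2 * (x * 2 ^ x) := by ring
      _ ≤ _ := by omega

/-- one vertex, one fibre -/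
lemma fibre (S : Finset V) (v : V) (hv : v ∈ S) (hN : Ind G (Nb G v S)) (d t : ℕ) (hd : 4 ^ t ≤ d)
    (W' : Finset V) (𝓘 : Finset (Finset V)) (h𝓘 : ∀ W, W ∈ 𝓘 ↔ W ⊆ S ∧ Ind G W) (hW' : W' ∈ 𝓘) :
    t * (𝓘.filter (fun W => W.filter (fun u => u ≠ v ∧ ¬ G.Adj v u) = W')).card ≤
      ∑ W ∈ 𝓘.filter (fun W => W.filter (fun u => u ≠ v ∧ ¬ G.Adj v u) = W'),
        4 * (d * (if v ∈ W then 1 else 0) + (W.filter (G.Adj v)).card) := by
  by_cases hgood : ∀ u ∈ W', u ≠ v ∧ ¬ G.Adj v u
  · set F := (Nb G v S).filter (fun u => ∀ w ∈ W', ¬ G.Adj u w) with hF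
    have hvv : ¬ G.Adj v v := G.loopless.irrefl _
    have hWS := ((h𝓘 W').1 hW').1
    have hWI := ((h𝓘 W').1 hW').2
    have hvF : ∀ A ∈ F.powerset, v ∉ W' ∪ A := by
      intro A hA hvA
      rw [Finset.mem_powerset] at hA
      rcases Finset.mem_union.1 hvA with h | h
      · exact (hgood v h).1 rfl
      · have := hA h
        rw [hF, Finset.mem_filter, mem_Nb] at this
        exact hvv this.1.2
    have key : 𝓘.filter (fun W => W.filter (fun u => u ≠ v ∧ ¬ G.Adj v u) = W') =
        insert (insert v W') (F.powerset.image (fun A => W' ∪ A)) := by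
      ext W
      simp only [Finset.mem_filter, Finset.mem_insert, Finset.mem_image, Finset.mem_powerset]
      constructor
      · rintro ⟨hW, hWW⟩
        obtain ⟨hS, hI⟩ := (h𝓘 W).1 hW
        by_cases hvW : v ∈ W
        · left
          ext u
          rw [Finset.mem_insert, ← hWW, Finset.mem_filter]
          constructor
          · intro hu
            by_cases huv : u = v
            · exact Or.inl huv
            · exact Or.inr ⟨hu, huv, hI v hvW u hu⟩
          · rintro (rfl | h)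
            · exact hvW
            · exact h.1
        · right
          refine ⟨W.filter (G.Adj v), ?_, ?_⟩
          · intro u hu
            rw [Finset.mem_filter] at hu
            rw [hF, Finset.mem_filter, mem_Nb]
            refine ⟨⟨hS hu.1, hu.2⟩, ?_⟩
            intro w hw
            rw [← hWW, Finset.mem_filter] at hw
            exact hI u hu.1 w hw.1
          · ext u
            rw [Finset.mem_union, ← hWW, Finset.mem_filter, Finset.mem_filter]
            constructor
            · rintro (h | h)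
              · exact h.1
              · exact h.1
            · intro hu
              by_cases huv : G.Adj v u
              · exact Or.inr ⟨hu, huv⟩
              · exact Or.inl ⟨hu, fun e => hvW (e ▸ hu), huv⟩
      · rintro (rfl | ⟨A, hA, rfl⟩)
        · refine ⟨(h𝓘 _).2 ⟨?_, ?_⟩, ?_⟩
          · intro u hu
            rcases Finset.mem_insert.1 hu with rfl | hu
            · exact hv
            · exact hWS hu
          · intro a ha b hb hab
            rcases Finset.mem_insert.1 ha with ha' | ha' <;>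
              rcases Finset.mem_insert.1 hb with hb' | hb'
            · rw [ha', hb'] at hab; exact hvv hab
            · exact (hgood b hb').2 (ha' ▸ hab)
            · exact (hgood a ha').2 (hb' ▸ hab.symm)
            · exact hWI a ha' b hb' hab
          · ext u
            rw [Finset.mem_filter, Finset.mem_insert]
            constructor
            · rintro ⟨h | h, h1, h2⟩
              · exact absurd h h1
              · exact h
            · intro h
              exact ⟨Or.inr h, hgood u h⟩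
        · have hAF : ∀ u ∈ A, (u ∈ S ∧ G.Adj v u) ∧ ∀ w ∈ W', ¬ G.Adj u w := by
            intro u hu
            have := hA hu
            rwa [hF, Finset.mem_filter, mem_Nb] at this
          refine ⟨(h𝓘 _).2 ⟨?_, ?_⟩, ?_⟩
          · intro u hu
            rcases Finset.mem_union.1 hu with hu | hu
            · exact hWS hu
            · exact (hAF u hu).1.1
          · intro a ha b hb hab
            rcases Finset.mem_union.1 ha with ha' | ha' <;>
              rcases Finset.mem_union.1 hb with hb' | hb'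
            · exact hWI a ha' b hb' hab
            · exact (hAF b hb').2 a ha' hab.symm
            · exact (hAF a ha').2 b hb' hab
            · exact hN a (mem_Nb.2 (hAF a ha').1) b (mem_Nb.2 (hAF b hb').1) hab
          · ext u
            rw [Finset.mem_filter, Finset.mem_union]
            constructor
            · rintro ⟨h | h, h1, h2⟩
              · exact h
              · exact absurd (hAF u h).1.2 h2
            · intro h
              exact ⟨Or.inl h, hgood u h⟩
    have hnot : insert v W' ∉ F.powerset.image (fun A => W' ∪ A) := by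
      intro h
      rw [Finset.mem_image] at h
      obtain ⟨A, hA, hAe⟩ := h
      exact hvF A hA (by rw [hAe]; exact Finset.mem_insert_self _ _)
    have hdisj : ∀ A ∈ F.powerset, Disjoint W' A := by
      intro A hA
      rw [Finset.disjoint_left]
      intro u hu hu'
      rw [Finset.mem_powerset] at hA
      have := hA hu'
      rw [hF, Finset.mem_filter, mem_Nb] at this
      exact (hgood u hu).2 this.1.2
    have hinj : Set.InjOn (fun A => W' ∪ A) (F.powerset : Set (Finset V)) := by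
      intro A hA B hB hAB
      have h1 : (W' ∪ A) \ W' = A := by
        rw [Finset.union_sdiff_left]
        exact Finset.sdiff_eq_self_of_disjoint (hdisj A hA).symm
      have h2 : (W' ∪ B) \ W' = B := by
        rw [Finset.union_sdiff_left]
        exact Finset.sdiff_eq_self_of_disjoint (hdisj B hB).symm
      simp only at hAB
      rw [← h1, hAB, h2]
    rw [key, Finset.sum_insert hnot, Finset.card_insert_of_notMem hnot,
      Finset.card_image_of_injOn hinj, Finset.sum_image hinj, Finset.card_powerset]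
    have hs : ∀ A ∈ F.powerset, 4 * (d * (if v ∈ W' ∪ A then 1 else 0) +
        ((W' ∪ A).filter (G.Adj v)).card) = 4 * A.card := by
      intro A hA
      rw [if_neg (hvF A hA)]
      have : (W' ∪ A).filter (G.Adj v) = A := by
        ext u
        rw [Finset.mem_filter, Finset.mem_union]
        constructor
        · rintro ⟨h | h, h'⟩
          · exact absurd h' (hgood u h).2
          · exact h
        · intro h
          rw [Finset.mem_powerset] at hA
          have := hA h
          rw [hF, Finset.mem_filter, mem_Nb] at this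
          exact ⟨Or.inr h, this.1.2⟩
      rw [this]
      ring
    rw [Finset.sum_congr rfl hs, ← Finset.mul_sum, if_pos (Finset.mem_insert_self _ _)]
    have h1 := sum_card_powerset F
    have h2 := arith d t F.card hd
    have h3 : 4 * ∑ A ∈ F.powerset, A.card = 2 * (F.card * 2 ^ F.card) := by rw [← h1]; ring
    rw [h3]
    calc t * (2 ^ F.card + 1) ≤ 4 * d + 2 * (F.card * 2 ^ F.card) := h2
      _ ≤ _ := by
        have : 4 * d ≤ 4 * (d * 1 + ((insert v W').filter (G.Adj v)).card) := by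
          rw [mul_one]; exact Nat.mul_le_mul_left _ (Nat.le_add_right _ _)
        omega
  · have : 𝓘.filter (fun W => W.filter (fun u => u ≠ v ∧ ¬ G.Adj v u) = W') = ∅ := by
      rw [Finset.filter_eq_empty_iff]
      intro W _ hW
      apply hgood
      intro u hu
      rw [← hW, Finset.mem_filter] at hu
      exact hu.2
    rw [this]
    simp

/-- triangle-free sets of bounded degree have large independent subsets -/
lemma local_ind (S : Finset V) (htri : ∀ v ∈ S, Ind G (Nb G v S)) (d t : ℕ) (hd : 4 ^ t ≤ d)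
    (hdeg : ∀ v ∈ S, (Nb G v S).card ≤ d) :
    ∃ I ⊆ S, Ind G I ∧ t * S.card ≤ 8 * d * I.card := by
  classical
  set 𝓘 : Finset (Finset V) := S.powerset.filter (fun W => Ind G W) with h𝓘d
  have h𝓘 : ∀ W, W ∈ 𝓘 ↔ W ⊆ S ∧ Ind G W := by
    intro W
    rw [h𝓘d, Finset.mem_filter, Finset.mem_powerset]
  have hne : (∅ : Finset V) ∈ 𝓘 := (h𝓘 _).2 ⟨Finset.empty_subset _, by intro u hu; simp at hu⟩
  -- per vertex
  have hv : ∀ v ∈ S, t * 𝓘.card ≤
      ∑ W ∈ 𝓘, 4 * (d * (if v ∈ W then 1 else 0) + (W.filter (G.Adj v)).card) := by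
    intro v hv
    have hmaps : ∀ W ∈ 𝓘, W.filter (fun u => u ≠ v ∧ ¬ G.Adj v u) ∈ 𝓘 := by
      intro W hW
      have := (h𝓘 W).1 hW
      exact (h𝓘 _).2 ⟨(Finset.filter_subset _ _).trans this.1, this.2.sub (Finset.filter_subset _ _)⟩
    rw [← Finset.sum_fiberwise_of_maps_to hmaps, Finset.card_eq_sum_card_fiberwise hmaps,
      Finset.mul_sum]
    refine Finset.sum_le_sum ?_
    intro W' hW'
    exact fibre S v hv (htri v hv) d t hd W' 𝓘 h𝓘 hW'
  by_contra hcon
  push Not at hcon
  have h1 : S.card * (t * 𝓘.card) ≤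
      ∑ v ∈ S, ∑ W ∈ 𝓘, 4 * (d * (if v ∈ W then 1 else 0) + (W.filter (G.Adj v)).card) := by
    rw [← smul_eq_mul]
    exact Finset.card_nsmul_le_sum _ _ _ hv
  rw [Finset.sum_comm] at h1
  have h2 : ∀ W ∈ 𝓘, ∑ v ∈ S, 4 * (d * (if v ∈ W then 1 else 0) + (W.filter (G.Adj v)).card) ≤
      8 * d * W.card := by
    intro W hW
    obtain ⟨hWS, hWI⟩ := (h𝓘 W).1 hW
    rw [← Finset.mul_sum, Finset.sum_add_distrib, ← Finset.mul_sum]
    have e1 : ∑ v ∈ S, (if v ∈ W then 1 else 0) = W.card := by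
      rw [Finset.sum_ite_mem]
      rw [Finset.inter_eq_right.2 hWS]
      simp
    have e2 : ∑ v ∈ S, (W.filter (G.Adj v)).card = ∑ w ∈ W, (Nb G w S).card := by
      have := Finset.sum_card_bipartiteAbove_eq_sum_card_bipartiteBelow (s := S) (t := W)
        (fun a b => G.Adj a b)
      simp only [Finset.bipartiteAbove, Finset.bipartiteBelow] at this
      rw [this]
      refine Finset.sum_congr rfl ?_
      intro w _
      congr 1
      ext u
      simp [Nb, SimpleGraph.adj_comm]
    have e3 : ∑ w ∈ W, (Nb G w S).card ≤ d * W.card := by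
      have := Finset.sum_le_card_nsmul W (fun w => (Nb G w S).card) d
        (fun w hw => hdeg w (hWS hw))
      rw [smul_eq_mul, mul_comm] at this
      exact this
    rw [e1, e2]
    calc 4 * (d * W.card + ∑ w ∈ W, (Nb G w S).card) ≤ 4 * (d * W.card + d * W.card) := by omega
      _ = 8 * d * W.card := by ring
  have h3 : ∑ W ∈ 𝓘, 8 * d * W.card < ∑ W ∈ 𝓘, t * S.card := by
    refine Finset.sum_lt_sum_of_nonempty ⟨_, hne⟩ ?_
    intro W hW
    obtain ⟨hWS, hWI⟩ := (h𝓘 W).1 hW
    exact hcon W hWS hWI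
  rw [Finset.sum_const, smul_eq_mul] at h3
  have h4 := h1.trans (Finset.sum_le_sum h2)
  have : S.card * (t * 𝓘.card) = 𝓘.card * (t * S.card) := by ring
  omega

/-- peeling off independent sets -/
lemma peel (a b : ℝ) (ha : 0 < a) : ∀ (n : ℕ) (S : Finset V), S.card ≤ n →
    (∀ S' ⊆ S, b < (S'.card : ℝ) → ∃ I ⊆ S', Ind G I ∧ a ≤ (I.card : ℝ)) →
    ∃ T ⊆ S, (T.card : ℝ) ≤ max b 0 ∧ ∃ q : ℕ, Col G (S \ T) q ∧ (q : ℝ) * a ≤ S.card := by
  intro n
  induction n with
  | zero =>
    intro S hS _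
    refine ⟨S, subset_rfl, ?_, 0, ?_, ?_⟩
    · have : S.card = 0 := by omega
      rw [this]; simp
    · rw [Finset.sdiff_self]; exact Col.empty
    · simp
  | succ n ih =>
    intro S hS h
    by_cases hb : (S.card : ℝ) ≤ b
    · refine ⟨S, subset_rfl, hb.trans (le_max_left _ _), 0, ?_, ?_⟩
      · rw [Finset.sdiff_self]; exact Col.empty
      · simp
    · push Not at hb
      obtain ⟨I, hIS, hI, haI⟩ := h S subset_rfl hb
      have hIc : 0 < I.card := by
        have : (0 : ℝ) < I.card := lt_of_lt_of_le ha haI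
        exact_mod_cast this
      have hcard : (S \ I).card + I.card = S.card := Finset.card_sdiff_add_card_eq_card hIS
      obtain ⟨T, hT, hTc, q, hq, hqa⟩ := ih (S \ I) (by omega)
        (fun S' hS' => h S' (hS'.trans Finset.sdiff_subset))
      refine ⟨T, hT.trans Finset.sdiff_subset, hTc, q + 1, ?_, ?_⟩
      · refine (hq.union (Col.of_ind hI)).sub ?_
        intro x hx
        rw [Finset.mem_sdiff] at hx
        rw [Finset.mem_union, Finset.mem_sdiff, Finset.mem_sdiff]
        by_cases hxI : x ∈ I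
        · exact Or.inr hxI
        · exact Or.inl ⟨⟨hx.1, hxI⟩, hx.2⟩
      · have : (S.card : ℝ) = (S \ I).card + I.card := by exact_mod_cast hcard.symm
        rw [this]
        push_cast
        nlinarith

lemma Col.card_self (S : Finset V) : Col G S S.card := by
  classical
  refine ⟨fun v => if h : v ∈ S then (S.equivFin ⟨v, h⟩ : ℕ) else 0, ?_, ?_⟩
  · intro v hv
    simp only [hv, dif_pos]
    exact (S.equivFin ⟨v, hv⟩).2
  · intro u hu v hv huv h
    simp only [hu, hv, dif_pos] at h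
    have := S.equivFin.injective (Fin.ext h)
    rw [Subtype.mk.injEq] at this
    exact G.loopless.irrefl _ (this ▸ huv)

/-- colouring triangle-free sets with bounded independence number -/
lemma tri_col (S : Finset V) (m h t : ℕ) (hh : 1 ≤ h) (htri : ∀ v ∈ S, Ind G (Nb G v S))
    (hm : AL G S m) (hm1 : 4 ^ t ≤ m) (hm2 : m < 4 ^ (t + 1)) (hht : 2 * h ≤ t) :
    ((S.card : ℝ) ≤ 8 * m ^ 2 / h) ∧ ∃ n : ℕ, Col G S n ∧ (n : ℝ) ≤ 96 * m / h := by
  have hhR : (1 : ℝ) ≤ h := by exact_mod_cast hh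
  have hmpos : 0 < m := lt_of_lt_of_le (by positivity) hm1
  have hmR : (0 : ℝ) < m := by exact_mod_cast hmpos
  have hh4 : 4 ^ h ≤ m := le_trans (Nat.pow_le_pow_right (by norm_num) (by omega)) hm1
  have hsub : ∀ S' ⊆ S, ∀ v ∈ S', Ind G (Nb G v S') := by
    intro S' hS' v hv
    refine (htri v (hS' hv)).sub ?_
    intro u hu
    rw [mem_Nb] at hu ⊢
    exact ⟨hS' hu.1, hu.2⟩
  have hcard : (S.card : ℝ) ≤ 8 * m ^ 2 / h := by
    obtain ⟨I, hIS, hI, hc⟩ := local_ind S htri m h hh4
      (fun v hv => hm _ (Nb_sub _ _) (htri v hv))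
    have hIm := hm I hIS hI
    have : h * S.card ≤ 8 * m * m := hc.trans (Nat.mul_le_mul_left _ hIm)
    rw [le_div_iff₀ (by linarith)]
    have h' : ((h * S.card : ℕ) : ℝ) ≤ ((8 * m * m : ℕ) : ℝ) := by exact_mod_cast this
    push_cast at h'
    nlinarith
  refine ⟨hcard, ?_⟩
  have main : ∀ j : ℕ, j ≤ t → ∃ T ⊆ S, (T.card : ℝ) ≤ 8 * m ^ 2 / h / 4 ^ j ∧
      ∃ q : ℕ, Col G (S \ T) q ∧ (q : ℝ) ≤ 64 * m / h * (1 - 1 / 2 ^ j) := by
    intro j
    induction j with
    | zero =>
      intro _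
      refine ⟨S, subset_rfl, by simpa using hcard, 0, ?_, by simp⟩
      rw [Finset.sdiff_self]; exact Col.empty
    | succ j ih =>
      intro hj
      obtain ⟨T, hTS, hTc, q, hq, hqb⟩ := ih (by omega)
      have h2j : (0 : ℝ) < 2 ^ j := by positivity
      have h4j : (0 : ℝ) < 4 ^ j := by positivity
      have h42 : (4 : ℝ) ^ j = 2 ^ j * 2 ^ j := by rw [← mul_pow]; norm_num
      obtain ⟨T', hT', hT'c, q', hq', hq'b⟩ := peel (G := G) (m / (4 * 2 ^ j))
        (8 * m ^ 2 / h / 4 ^ (j + 1)) (by positivity) T.card T le_rfl (by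
          intro S' hS' hbig
          by_cases hdeg : ∀ v ∈ S', (Nb G v S').card ≤ m / 2 ^ j
          · have hD : 4 ^ h ≤ m / 2 ^ j := by
              rw [Nat.le_div_iff_mul_le (by positivity)]
              refine le_trans ?_ hm1
              have e1 : (4 : ℕ) ^ h ≤ 2 ^ t := by
                have : (4 : ℕ) ^ h = 2 ^ (2 * h) := by rw [pow_mul]; norm_num
                rw [this]
                exact Nat.pow_le_pow_right (by norm_num) hht
              have e2 : (2 : ℕ) ^ j ≤ 2 ^ t := Nat.pow_le_pow_right (by norm_num) (by omega)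
              have e3 : (4 : ℕ) ^ t = 2 ^ t * 2 ^ t := by rw [← mul_pow]; norm_num
              rw [e3]
              exact Nat.mul_le_mul e1 e2
            obtain ⟨I, hIS, hI, hc⟩ := local_ind S' (hsub S' (hS'.trans hTS)) (m / 2 ^ j) h hD hdeg
            refine ⟨I, hIS, hI, ?_⟩
            have hc' : ((h * S'.card : ℕ) : ℝ) ≤ ((8 * (m / 2 ^ j) * I.card : ℕ) : ℝ) := by
              exact_mod_cast hc
            push_cast at hc'
            have hfl : ((m / 2 ^ j : ℕ) : ℝ) ≤ m / 2 ^ j := by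
              have := @Nat.cast_div_le ℝ _ _ _ m (2 ^ j)
              push_cast at this
              exact this
            have hI0 : (0 : ℝ) ≤ I.card := by positivity
            have h5 : (h : ℝ) * S'.card ≤ 8 * (m / 2 ^ j) * I.card := by
              refine hc'.trans ?_
              exact mul_le_mul_of_nonneg_right (mul_le_mul_of_nonneg_left hfl (by norm_num)) hI0
            have h6 : (h : ℝ) * (8 * m ^ 2 / h / 4 ^ (j + 1)) = 8 * m ^ 2 / 4 ^ (j + 1) := by
              field_simp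
            have h7 : 8 * (m : ℝ) ^ 2 / 4 ^ (j + 1) ≤ 8 * (m / 2 ^ j) * I.card := by
              rw [← h6]
              refine le_trans ?_ h5
              exact mul_le_mul_of_nonneg_left hbig.le (by linarith)
            have h8 : 8 * (m : ℝ) ^ 2 / 4 ^ (j + 1) = 8 * (m / 2 ^ j) * (m / (4 * 2 ^ j)) := by
              rw [pow_succ (4 : ℝ) j, h42]
              field_simp
              try ring
            rw [h8] at h7
            exact le_of_mul_le_mul_left h7 (by positivity)
          · push Not at hdeg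
            obtain ⟨v, hv, hvd⟩ := hdeg
            refine ⟨Nb G v S', Nb_sub _ _, hsub S' (hS'.trans hTS) v hv, ?_⟩
            have h1 : m < (Nb G v S').card * 2 ^ j := (Nat.div_lt_iff_lt_mul (by positivity)).1 hvd
            have h2 : (m : ℝ) ≤ (Nb G v S').card * 2 ^ j := by exact_mod_cast h1.le
            rw [div_le_iff₀ (by positivity)]
            have h3 : (0 : ℝ) ≤ (Nb G v S').card * 2 ^ j := by positivity
            nlinarith)
      have hpos : (0 : ℝ) ≤ 8 * m ^ 2 / h / 4 ^ (j + 1) := by positivity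
      rw [max_eq_left hpos] at hT'c
      refine ⟨T', hT'.trans hTS, hT'c, q + q', ?_, ?_⟩
      · refine (hq.union hq').sub ?_
        intro x hx
        rw [Finset.mem_sdiff] at hx
        rw [Finset.mem_union, Finset.mem_sdiff, Finset.mem_sdiff]
        by_cases hxT : x ∈ T
        · exact Or.inr ⟨hxT, hx.2⟩
        · exact Or.inl ⟨hx.1, hxT⟩
      · have h1 : (q' : ℝ) * (m / (4 * 2 ^ j)) ≤ 8 * m ^ 2 / h / 4 ^ j := hq'b.trans hTc
        have h2 : (q' : ℝ) ≤ 32 * m / h / 2 ^ j := by
          have h3 : 8 * (m : ℝ) ^ 2 / h / 4 ^ j = (32 * m / h / 2 ^ j) * (m / (4 * 2 ^ j)) := by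
            rw [h42]
            field_simp
            norm_num
          rw [h3] at h1
          exact le_of_mul_le_mul_right h1 (by positivity)
        push_cast
        have h4 : 64 * (m : ℝ) / h * (1 - 1 / 2 ^ (j + 1)) =
            64 * m / h * (1 - 1 / 2 ^ j) + 32 * m / h / 2 ^ j := by
          rw [pow_succ]
          field_simp
          ring
        rw [h4]
        linarith
  obtain ⟨T, hTS, hTc, q, hq, hqb⟩ := main t le_rfl
  refine ⟨q + T.card, ?_, ?_⟩
  · refine (hq.union (Col.card_self T)).sub ?_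
    intro x hx
    rw [Finset.mem_union, Finset.mem_sdiff]
    by_cases hxT : x ∈ T
    · exact Or.inr hxT
    · exact Or.inl ⟨hx, hxT⟩
  · push_cast
    have h1 : 8 * (m : ℝ) ^ 2 / h / 4 ^ t ≤ 32 * m / h := by
      have h4t : (0 : ℝ) < 4 ^ t := by positivity
      have hm2' : (m : ℝ) ≤ 4 * 4 ^ t := by
        have : (m : ℝ) < ((4 ^ (t + 1) : ℕ) : ℝ) := by exact_mod_cast hm2
        push_cast at this
        rw [pow_succ] at this
        linarith
      rw [div_le_iff₀ h4t]
      have : 32 * (m : ℝ) / h * 4 ^ t = 8 * m * (4 * 4 ^ t) / h := by ring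
      rw [this]
      refine div_le_div_of_nonneg_right ?_ (by linarith)
      nlinarith
    have h2 : 64 * (m : ℝ) / h * (1 - 1 / 2 ^ t) ≤ 64 * m / h := by
      have : (0 : ℝ) ≤ 1 / 2 ^ t := by positivity
      have h3 : (0 : ℝ) ≤ 64 * m / h := by positivity
      nlinarith
    have h3 : 96 * (m : ℝ) / h = 64 * m / h + 32 * m / h := by ring
    rw [h3]
    linarith

/-- size bound for `K_k`-free sets with bounded independence number -/
lemma size_bound (m h t : ℕ) (hh : 1 ≤ h) (hm1 : 4 ^ t ≤ m) (hm2 : m < 4 ^ (t + 1))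
    (hht : 2 * h ≤ t) (hhm : h ≤ m) : ∀ (j : ℕ) (S : Finset V), KF G (j + 3) S → AL G S m →
    (S.card : ℝ) ≤ (8 + j) * m ^ (j + 2) / h := by
  have hhR : (1 : ℝ) ≤ h := by exact_mod_cast hh
  have hmpos : 0 < m := lt_of_lt_of_le (by positivity) hm1
  have hmR : (1 : ℝ) ≤ m := by exact_mod_cast hmpos
  intro j
  induction j with
  | zero =>
    intro S hK hA
    have htri : ∀ v ∈ S, Ind G (Nb G v S) := by
      intro v hv a ha b hb hab
      refine (hK.nb hv) {a, b} ?_ ?_
      · intro x hx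
        rcases Finset.mem_insert.1 hx with rfl | hx
        · exact ha
        · rw [Finset.mem_singleton] at hx; exact hx ▸ hb
      · rw [SimpleGraph.isNClique_iff]
        refine ⟨?_, Finset.card_pair hab.ne⟩
        rw [SimpleGraph.isClique_iff]
        intro x hx y hy hxy
        simp only [Finset.coe_insert, Finset.coe_singleton, Set.mem_insert_iff,
          Set.mem_singleton_iff] at hx hy
        rcases hx with rfl | rfl <;> rcases hy with rfl | rfl
        · exact absurd rfl hxy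
        · exact hab
        · exact hab.symm
        · exact absurd rfl hxy
    have := (tri_col S m h t hh htri hA hm1 hm2 hht).1
    simpa using this
  | succ j ih =>
    intro S hK hA
    have hdeg : ∀ v ∈ S, (Nb G v S).card ≤ ⌊(8 + j : ℝ) * m ^ (j + 2) / h⌋₊ := by
      intro v hv
      exact Nat.le_floor (ih _ (hK.nb hv) (hA.sub (Nb_sub _ _)))
    have h1 := (Col.greedy _ S hdeg).card_le hA
    have h2 : (S.card : ℝ) ≤ ((8 + j : ℝ) * m ^ (j + 2) / h + 1) * m := by
      have h3 : (S.card : ℝ) ≤ (((⌊(8 + j : ℝ) * m ^ (j + 2) / h⌋₊ + 1) * m : ℕ) : ℝ) := by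
        exact_mod_cast h1
      refine h3.trans ?_
      push_cast
      refine mul_le_mul_of_nonneg_right ?_ (by linarith)
      have := Nat.floor_le (show (0 : ℝ) ≤ (8 + j : ℝ) * m ^ (j + 2) / h by positivity)
      linarith
    refine h2.trans ?_
    have h4 : (1 : ℝ) * m ≤ m ^ (j + 3) / h := by
      rw [le_div_iff₀ (by linarith)]
      have h5 : (h : ℝ) ≤ m := by exact_mod_cast hhm
      have h6 : (m : ℝ) ^ (j + 3) = m ^ (j + 1) * m * m := by ring
      rw [h6]
      have h7 : (1 : ℝ) ≤ m ^ (j + 1) := one_le_pow₀ hmR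
      nlinarith [mul_nonneg (show (0 : ℝ) ≤ m by linarith) (show (0 : ℝ) ≤ m by linarith)]
    have h8 : ((8 + (j + 1 : ℕ) : ℝ)) * m ^ (j + 1 + 2) / h =
        (8 + j : ℝ) * m ^ (j + 2) / h * m + m ^ (j + 3) / h := by
      push_cast
      ring
    rw [h8, add_mul]
    linarith

/-- chromatic bound for `K_k`-free sets with bounded independence number -/
lemma chrom_bound (m h t : ℕ) (hh : 1 ≤ h) (hm1 : 4 ^ t ≤ m) (hm2 : m < 4 ^ (t + 1))
    (hht : 2 * h ≤ t) (hhm : h ≤ m) (j : ℕ) (S : Finset V) (hK : KF G (j + 4) S)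
    (hA : AL G S m) : ∃ n : ℕ, Col G S n ∧ (n : ℝ) ≤ (9 + j) * m ^ (j + 2) / h := by
  have hhR : (1 : ℝ) ≤ h := by exact_mod_cast hh
  have hmpos : 0 < m := lt_of_lt_of_le (by positivity) hm1
  have hmR : (1 : ℝ) ≤ m := by exact_mod_cast hmpos
  have hdeg : ∀ v ∈ S, (Nb G v S).card ≤ ⌊(8 + j : ℝ) * m ^ (j + 2) / h⌋₊ := by
    intro v hv
    exact Nat.le_floor (size_bound m h t hh hm1 hm2 hht hhm j _ (hK.nb hv) (hA.sub (Nb_sub _ _)))
  refine ⟨_, Col.greedy _ S hdeg, ?_⟩
  push_cast
  have := Nat.floor_le (show (0 : ℝ) ≤ (8 + j : ℝ) * m ^ (j + 2) / h by positivity)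
  have h4 : (1 : ℝ) ≤ m ^ (j + 2) / h := by
    rw [le_div_iff₀ (by linarith)]
    have h5 : (h : ℝ) ≤ m := by exact_mod_cast hhm
    have h6 : (m : ℝ) ^ (j + 2) = m ^ (j + 1) * m := by ring
    rw [h6]
    have h7 : (1 : ℝ) ≤ m ^ (j + 1) := one_le_pow₀ hmR
    nlinarith
  have h8 : (9 + j : ℝ) * m ^ (j + 2) / h = (8 + j : ℝ) * m ^ (j + 2) / h + m ^ (j + 2) / h := by
    ring
  rw [h8]
  linarith

/-- induced path on four vertices -/
def P4 (G : SimpleGraph V) (a b c d : V) : Prop :=
  G.Adj a b ∧ G.Adj b c ∧ G.Adj c d ∧ ¬ G.Adj a c ∧ ¬ G.Adj b d ∧ ¬ G.Adj a d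

/-- `P₄`-free sets: colouring with `k` colours when there is no `(k+1)`-clique -/
lemma cograph (S : Finset V) (k : ℕ) (hP : ∀ a ∈ S, ∀ b ∈ S, ∀ c ∈ S, ∀ d ∈ S, ¬ P4 G a b c d)
    (hK : KF G (k + 1) S) : Col G S k := by
  classical
  -- proper colourings of `S`
  let Pr : (V → ℕ) → Prop := fun f => ∀ u ∈ S, ∀ v ∈ S, G.Adj u v → f u ≠ f v
  have hex : ∃ n : ℕ, ∃ f : V → ℕ, Pr f ∧ ∑ v ∈ S, f v = n := by
    obtain ⟨f, _, hf⟩ := Col.card_self (G := G) S
    exact ⟨_, f, hf, rfl⟩
  obtain ⟨f, hf, hfs⟩ := Nat.find_spec hex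
  have hmin : ∀ g, Pr g → ∑ v ∈ S, f v ≤ ∑ v ∈ S, g v := by
    intro g hg
    rw [hfs]
    exact Nat.find_min' hex ⟨g, hg, rfl⟩
  -- Grundy property
  have hgr : ∀ v ∈ S, ∀ i < f v, ∃ u ∈ S, G.Adj v u ∧ f u = i := by
    intro v hv i hi
    by_contra hcon
    push Not at hcon
    have hg : Pr (fun w => if w = v then i else f w) := by
      intro u hu w hw huw
      by_cases h1 : u = v <;> by_cases h2 : w = v <;> simp only [h1, h2, if_true, if_false]
      · subst h1; subst h2; exact absurd huw (G.loopless.irrefl _)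
      · exact fun e => hcon w hw (h1 ▸ huw) e.symm
      · exact hcon u hu (h2 ▸ huw.symm)
      · exact hf u hu w hw huw
    have := hmin _ hg
    have h3 : ∑ w ∈ S, (if w = v then i else f w) < ∑ w ∈ S, f w := by
      refine Finset.sum_lt_sum ?_ ⟨v, hv, by simpa using hi⟩
      intro w _
      by_cases h : w = v
      · simp only [h, if_true]; exact hi.le
      · simp [h]
    omega
  refine ⟨f, ?_, hf⟩
  by_contra hcon
  push Not at hcon
  obtain ⟨v0, hv0, hk⟩ := hcon
  -- cliques with colours `i, ..., f v0`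
  have key : ∀ r : ℕ, r ≤ f v0 → ∃ Q ⊆ S, G.IsNClique (r + 1) Q ∧
      ∀ q ∈ Q, f v0 - r ≤ f q := by
    intro r
    induction r with
    | zero =>
      intro _
      refine ⟨{v0}, by simpa using hv0, by simp [SimpleGraph.isNClique_iff], ?_⟩
      intro q hq
      rw [Finset.mem_singleton] at hq
      rw [hq]; omega
    | succ r ih =>
      intro hr
      obtain ⟨Q, hQS, hQ, hQf⟩ := ih (by omega)
      set i := f v0 - (r + 1) with hi
      have hQi : ∀ q ∈ Q, i < f q := by
        intro q hq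
        have := hQf q hq
        omega
      have hne : Q.Nonempty := by
        rw [← Finset.card_pos, hQ.card_eq]; omega
      obtain ⟨q0, hq0⟩ := hne
      -- choose u of colour i with most neighbours in Q
      obtain ⟨u0, hu0, _, hu0i⟩ := hgr q0 (hQS hq0) i (hQi q0 hq0)
      obtain ⟨u, hu, humax⟩ := Finset.exists_max_image (S.filter (fun x => f x = i))
        (fun x => (Q.filter (G.Adj x)).card) ⟨u0, Finset.mem_filter.2 ⟨hu0, hu0i⟩⟩
      rw [Finset.mem_filter] at hu
      obtain ⟨huS, hui⟩ := hu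
      by_cases hall : ∀ q ∈ Q, G.Adj u q
      · refine ⟨insert u Q, ?_, ?_, ?_⟩
        · intro x hx
          rcases Finset.mem_insert.1 hx with rfl | hx
          · exact huS
          · exact hQS hx
        · exact hQ.insert hall
        · intro q hq
          rcases Finset.mem_insert.1 hq with rfl | hq
          · omega
          · have := hQf q hq; omega
      · exfalso
        push Not at hall
        obtain ⟨w, hwQ, hw⟩ := hall
        obtain ⟨u', hu'S, hwu', hu'i⟩ := hgr w (hQS hwQ) i (hQi w hwQ)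
        -- some neighbour of u in Q is not a neighbour of u'
        have hex2 : ∃ y ∈ Q, G.Adj u y ∧ ¬ G.Adj u' y := by
          by_contra hno
          push Not at hno
          have hss : Q.filter (G.Adj u) ⊂ Q.filter (G.Adj u') := by
            rw [Finset.ssubset_iff_of_subset]
            · refine ⟨w, Finset.mem_filter.2 ⟨hwQ, hwu'.symm⟩, ?_⟩
              intro h
              exact hw (Finset.mem_filter.1 h).2
            · intro y hy
              rw [Finset.mem_filter] at hy ⊢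
              exact ⟨hy.1, hno y hy.1 hy.2⟩
          have h1 := Finset.card_lt_card hss
          have h2 := humax u' (Finset.mem_filter.2 ⟨hu'S, hu'i⟩)
          omega
        obtain ⟨y, hyQ, huy, hu'y⟩ := hex2
        have hyw : y ≠ w := fun e => hw (e ▸ huy)
        have hywA : G.Adj y w := by
          have := hQ.isClique
          exact this (Finset.mem_coe.2 hyQ) (Finset.mem_coe.2 hwQ) hyw
        refine hP u huS y (hQS hyQ) w (hQS hwQ) u' hu'S
          ⟨huy, hywA, hwu', hw, fun h => hu'y h.symm, ?_⟩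
        intro h
        exact hf u huS u' hu'S h (hui.trans hu'i.symm)
  obtain ⟨Q, hQS, hQ, _⟩ := key k (by omega)
  exact hK Q hQS hQ

/-- no induced `P₄ + ℓ P₁` inside `S` -/
def NoP (G : SimpleGraph V) (ℓ : ℕ) (S : Finset V) : Prop :=
  ∀ a ∈ S, ∀ b ∈ S, ∀ c ∈ S, ∀ d ∈ S, P4 G a b c d → ∀ I ⊆ S, Ind G I →
    (∀ x ∈ I, (¬ G.Adj a x ∧ ¬ G.Adj b x ∧ ¬ G.Adj c x ∧ ¬ G.Adj d x) ∧
      x ≠ a ∧ x ≠ b ∧ x ≠ c ∧ x ≠ d) → I.card < ℓ

lemma NoP.sub {ℓ : ℕ} {S T : Finset V} (h : NoP G ℓ S) (hT : T ⊆ S) : NoP G ℓ T :=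
  fun a ha b hb c hc d hd hP I hI => h a (hT ha) b (hT hb) c (hT hc) d (hT hd) hP I (hI.trans hT)

lemma step {k ℓ c c' : ℕ} (hℓ : 1 ≤ ℓ) (S : Finset V) (hNoP : NoP G ℓ S) (hK : KF G (k + 1) S)
    (hN0 : ∀ N ⊆ S, KF G (k + 1) N → AL G N (ℓ - 1) → Col G N c)
    (hN : ∀ N ⊆ S, NoP G ℓ N → KF G k N → Col G N c') (hk : k ≤ c + 4 * c') :
    Col G S (c + 4 * c') := by
  by_cases hP : ∀ a ∈ S, ∀ b ∈ S, ∀ c ∈ S, ∀ d ∈ S, ¬ P4 G a b c d
  · exact (cograph S k hP hK).mono hk
  · push Not at hP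
    obtain ⟨a, ha, b, hb, x, hx, d, hd, hP⟩ := hP
    set N := S.filter (fun y => (¬ G.Adj a y ∧ ¬ G.Adj b y ∧ ¬ G.Adj x y ∧ ¬ G.Adj d y) ∧
      y ≠ a ∧ y ≠ b ∧ y ≠ x ∧ y ≠ d) with hNd
    have h0 : Col G N c := by
      refine hN0 N (Finset.filter_subset _ _) (hK.sub (Finset.filter_subset _ _)) ?_
      intro I hI hI'
      have := hNoP a ha b hb x hx d hd hP I (hI.trans (Finset.filter_subset _ _)) hI' (by
        intro y hy
        exact (Finset.mem_filter.1 (hI hy)).2)
      omega
    have hnb : ∀ v ∈ S, Col G (Nb G v S) c' := fun v hv =>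
      hN _ (Nb_sub _ _) (hNoP.sub (Nb_sub _ _)) (hK.nb hv)
    have h1 := (((h0.union (hnb a ha)).union (hnb b hb)).union (hnb x hx)).union (hnb d hd)
    have h2 : c + c' + c' + c' + c' = c + 4 * c' := by ring
    rw [h2] at h1
    refine h1.sub ?_
    intro y hy
    simp only [Finset.mem_union, mem_Nb, hNd, Finset.mem_filter]
    obtain ⟨e1, e2, e3, _, _, _⟩ := hP
    by_cases q1 : G.Adj a y
    · exact Or.inl (Or.inl (Or.inl (Or.inr ⟨hy, q1⟩)))
    by_cases q2 : G.Adj b y
    · exact Or.inl (Or.inl (Or.inr ⟨hy, q2⟩))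
    by_cases q3 : G.Adj x y
    · exact Or.inl (Or.inr ⟨hy, q3⟩)
    by_cases q4 : G.Adj d y
    · exact Or.inr ⟨hy, q4⟩
    refine Or.inl (Or.inl (Or.inl (Or.inl ⟨hy, ⟨q1, q2, q3, q4⟩, ?_, ?_, ?_, ?_⟩)))
    · rintro rfl; exact q2 e1.symm
    · rintro rfl; exact q1 e1
    · rintro rfl; exact q2 e2
    · rintro rfl; exact q3 e3

lemma ind_of_KF {S : Finset V} (h : KF G 2 S) : Ind G S := by
  intro a ha b hb hab
  refine h {a, b} ?_ ?_
  · intro x hx
    rcases Finset.mem_insert.1 hx with rfl | hx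
    · exact ha
    · rw [Finset.mem_singleton] at hx; exact hx ▸ hb
  · rw [SimpleGraph.isNClique_iff]
    refine ⟨?_, Finset.card_pair hab.ne⟩
    rw [SimpleGraph.isClique_iff]
    intro x hx y hy hxy
    simp only [Finset.coe_insert, Finset.coe_singleton, Set.mem_insert_iff,
      Set.mem_singleton_iff] at hx hy
    rcases hx with rfl | rfl <;> rcases hy with rfl | rfl
    · exact absurd rfl hxy
    · exact hab
    · exact hab.symm
    · exact absurd rfl hxy

lemma ramsey_col (K m : ℕ) (S : Finset V) (hK : KF G (K + 2) S) (hA : AL G S m) :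
    Col G S ((m + K).choose K) := by
  have hdeg : ∀ v ∈ S, (Nb G v S).card ≤ (m + K).choose K - 1 := by
    intro v hv
    have := ramsey (K + m) K m le_rfl (Nb G v S) (hK.nb hv) (hA.sub (Nb_sub _ _))
    omega
  have h1 := Col.greedy _ S hdeg
  have h2 : 0 < (m + K).choose K := Nat.choose_pos (by omega)
  have h3 : (m + K).choose K - 1 + 1 = (m + K).choose K := by omega
  rwa [h3] at h1

lemma log_col (ℓ h t : ℕ) (hh : 1 ≤ h) (hℓ : 16 ≤ ℓ) (hm1 : 4 ^ t ≤ ℓ) (hm2 : ℓ < 4 ^ (t + 1))
    (hht : 2 * h ≤ t) (hhm : h ≤ ℓ) : ∀ (j : ℕ) (S : Finset V), NoP G ℓ S → KF G (j + 3) S →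
    Col G S ⌊(106 + 2 * j : ℝ) * ℓ ^ (j + 1) / h⌋₊ := by
  have hhR : (1 : ℝ) ≤ h := by exact_mod_cast hh
  have hℓR : (16 : ℝ) ≤ ℓ := by exact_mod_cast hℓ
  have hhℓ : (h : ℝ) ≤ ℓ := by exact_mod_cast hhm
  intro j
  induction j with
  | zero =>
    intro S hP hK
    have h96 : (0 : ℝ) ≤ 96 * ℓ / h := by positivity
    have hst : Col G S (⌊96 * (ℓ : ℝ) / h⌋₊ + 4 * 1) := by
      refine step (by omega) S hP hK ?_ ?_ ?_
      · intro N _ hN hA
        have htri : ∀ v ∈ N, Ind G (Nb G v N) := fun v hv => ind_of_KF (hN.nb hv)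
        obtain ⟨n, hn, hnb⟩ := (tri_col N ℓ h t hh htri (hA.mono (by omega)) hm1 hm2 hht).2
        exact hn.mono (Nat.le_floor hnb)
      · intro N _ _ hN
        exact Col.of_ind (ind_of_KF hN)
      · omega
    refine hst.mono (Nat.le_floor ?_)
    push_cast
    have h1 := Nat.floor_le h96
    have h2 : (1 : ℝ) ≤ ℓ / h := by rw [le_div_iff₀ (by linarith)]; linarith
    have h3 : (106 + 2 * 0 : ℝ) * ℓ ^ (0 + 1) / h = 96 * ℓ / h + 10 * (ℓ / h) := by ring
    rw [h3]
    linarith
  | succ j ih =>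
    intro S hP hK
    have hpos1 : (0 : ℝ) ≤ (9 + j) * ℓ ^ (j + 2) / h := by positivity
    have hpos2 : (0 : ℝ) ≤ (106 + 2 * j) * ℓ ^ (j + 1) / h := by positivity
    have hge : (1 : ℝ) ≤ ℓ ^ (j + 1) / h := by
      rw [le_div_iff₀ (by linarith), one_mul, pow_succ]
      have : (1 : ℝ) ≤ ℓ ^ j := one_le_pow₀ (by linarith)
      nlinarith
    have hst : Col G S (⌊(9 + j : ℝ) * ℓ ^ (j + 2) / h⌋₊ +
        4 * ⌊(106 + 2 * j : ℝ) * ℓ ^ (j + 1) / h⌋₊) := by
      refine step (by omega) S hP hK ?_ ?_ ?_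
      · intro N _ hN hA
        obtain ⟨n, hn, hnb⟩ := chrom_bound ℓ h t hh hm1 hm2 hht hhm j N hN (hA.mono (by omega))
        exact hn.mono (Nat.le_floor hnb)
      · intro N _ hNP hN
        exact ih N hNP hN
      · have h1 : (j + 3 : ℕ) ≤ ⌊(106 + 2 * j : ℝ) * ℓ ^ (j + 1) / h⌋₊ := by
          refine Nat.le_floor ?_
          push_cast
          have h2 : (106 + 2 * j : ℝ) * ℓ ^ (j + 1) / h = (106 + 2 * j : ℝ) * (ℓ ^ (j + 1) / h) := by
            ring
          rw [h2]
          have h3 : (0 : ℝ) ≤ j := by positivity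
          nlinarith
        omega
    refine hst.mono (Nat.le_floor ?_)
    push_cast
    have h1 := Nat.floor_le hpos1
    have h2 := Nat.floor_le hpos2
    have h3 : (0 : ℝ) ≤ j := by positivity
    have h4 : (4 : ℝ) * ℓ ^ (j + 1) ≤ ℓ ^ (j + 2) / 4 := by
      have : (ℓ : ℝ) ^ (j + 2) = ℓ ^ (j + 1) * ℓ := by ring
      rw [this]
      have h5 : (0 : ℝ) ≤ ℓ ^ (j + 1) := by positivity
      nlinarith
    have h6 : 4 * ((106 + 2 * j : ℝ) * ℓ ^ (j + 1) / h) ≤ (106 + 2 * j) * (ℓ ^ (j + 2) / 4) / h := by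
      have : 4 * ((106 + 2 * j : ℝ) * ℓ ^ (j + 1) / h) = (106 + 2 * j) * (4 * ℓ ^ (j + 1)) / h := by
        ring
      rw [this]
      refine div_le_div_of_nonneg_right ?_ (by linarith)
      exact mul_le_mul_of_nonneg_left h4 (by linarith)
    have h7 : (9 + j : ℝ) * ℓ ^ (j + 2) / h + (106 + 2 * j) * (ℓ ^ (j + 2) / 4) / h ≤
        (106 + 2 * (j + 1)) * ℓ ^ (j + 1 + 1) / h := by
      rw [← add_div]
      refine div_le_div_of_nonneg_right ?_ (by linarith)
      have h8 : (0 : ℝ) ≤ ℓ ^ (j + 2) := by positivity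
      have h9 : (ℓ : ℝ) ^ (j + 1 + 1) = ℓ ^ (j + 2) := by ring
      rw [h9]
      nlinarith [mul_nonneg h3 h8]
    linarith


/-- non-neighbours of `v` inside `S` -/
def Rs (G : SimpleGraph V) [DecidableRel G.Adj] (v : V) (S : Finset V) : Finset V :=
  S.filter (fun u => u ≠ v ∧ ¬ G.Adj v u)

lemma mem_Rs {v : V} {S : Finset V} {u : V} : u ∈ Rs G v S ↔ u ∈ S ∧ u ≠ v ∧ ¬ G.Adj v u := by
  simp [Rs]

lemma Rs_sub (v : V) (S : Finset V) : Rs G v S ⊆ S := Finset.filter_subset _ _

lemma NoP.res {ℓ : ℕ} {S : Finset V} (h : NoP G (ℓ + 1) S) {v : V} (hv : v ∈ S) :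
    NoP G ℓ (Rs G v S) := by
  intro a ha b hb c hc d hd hP I hI hI' hx
  have hvI : v ∉ I := fun h' => (mem_Rs.1 (hI h')).2.1 rfl
  have ha' := mem_Rs.1 ha
  have hb' := mem_Rs.1 hb
  have hc' := mem_Rs.1 hc
  have hd' := mem_Rs.1 hd
  have := h a ha'.1 b hb'.1 c hc'.1 d hd'.1 hP (insert v I) (by
    intro x hx'
    rcases Finset.mem_insert.1 hx' with h1 | h1
    · exact h1 ▸ hv
    · exact Rs_sub _ _ (hI h1)) (by
    intro x hx1 y hy1 hxy
    rcases Finset.mem_insert.1 hx1 with h1 | h1 <;> rcases Finset.mem_insert.1 hy1 with h2 | h2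
    · rw [h1, h2] at hxy; exact G.loopless.irrefl _ hxy
    · exact (mem_Rs.1 (hI h2)).2.2 (h1 ▸ hxy)
    · exact (mem_Rs.1 (hI h1)).2.2 (h2 ▸ hxy.symm)
    · exact hI' x h1 y h2 hxy) (by
    intro x hx1
    rcases Finset.mem_insert.1 hx1 with h1 | h1
    · rw [h1]
      exact ⟨⟨fun q => ha'.2.2 q.symm, fun q => hb'.2.2 q.symm, fun q => hc'.2.2 q.symm,
        fun q => hd'.2.2 q.symm⟩, fun q => ha'.2.1 q.symm, fun q => hb'.2.1 q.symm,
        fun q => hc'.2.1 q.symm, fun q => hd'.2.1 q.symm⟩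
    · exact hx x h1)
  rw [Finset.card_insert_of_notMem hvI] at this
  omega

lemma Col.add_isolated {R : Finset V} {n : ℕ} (h : Col G R n) (hn : 1 ≤ n) {v : V}
    (hv : v ∉ R) (hiso : ∀ u ∈ R, ¬ G.Adj v u) : Col G (insert v R) n := by
  obtain ⟨f, h1, h2⟩ := h
  refine ⟨fun u => if u = v then 0 else f u, ?_, ?_⟩
  · intro u hu
    by_cases huv : u = v
    · simp only [huv, if_true]; omega
    · simp only [huv, if_false]
      exact h1 u (by simpa [huv] using hu)
  · intro u hu w hw huw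
    by_cases e1 : u = v <;> by_cases e2 : w = v
    · exact absurd huw (by rw [e1, e2]; exact G.loopless.irrefl _)
    · exact absurd (e1 ▸ huw) (hiso w (by simpa [e2] using hw))
    · exact absurd (e2 ▸ huw.symm) (hiso u (by simpa [e1] using hu))
    · simp only [e1, e2, if_false]
      exact h2 u (by simpa [e1] using hu) w (by simpa [e2] using hw) huw

lemma Col.split {S : Finset V} {v : V} (hv : v ∈ S) {n c : ℕ} (hn : 1 ≤ n)
    (h : Col G (Rs G v S) n) (h' : Col G (Nb G v S) c) : Col G S (n + c) := by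
  refine ((h.add_isolated hn (fun q => (mem_Rs.1 q).2.1 rfl)
    (fun u hu => (mem_Rs.1 hu).2.2)).union h').sub ?_
  intro u hu
  rw [Finset.mem_union, Finset.mem_insert, mem_Rs, mem_Nb]
  by_cases h1 : u = v
  · exact Or.inl (Or.inl h1)
  · by_cases h2 : G.Adj v u
    · exact Or.inr ⟨hu, h2⟩
    · exact Or.inl (Or.inr ⟨hu, h1, h2⟩)

lemma binom_col : ∀ (ℓ K : ℕ) (S : Finset V), NoP G ℓ S → KF G (K + 2) S →
    Col G S ((ℓ + K + 1).choose K) := by
  intro ℓ
  induction ℓ with
  | zero =>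
    intro K S hP hK
    have h1 := cograph S (K + 1) (by
      intro a ha b hb c hc d hd hp
      have := hP a ha b hb c hc d hd hp ∅ (Finset.empty_subset _) (by intro u hu; simp at hu)
        (by simp)
      simp at this) hK
    have h2 : (0 + K + 1).choose K = K + 1 := by
      rw [zero_add, Nat.choose_succ_self_right]
    rwa [h2]
  | succ ℓ ih =>
    intro K
    induction K with
    | zero =>
      intro S _ hK
      simpa using Col.of_ind (ind_of_KF hK)
    | succ K ihK =>
      intro S hP hK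
      rcases S.eq_empty_or_nonempty with rfl | ⟨v, hv⟩
      · exact Col.empty.mono (Nat.zero_le _)
      · have h1 := ih (K + 1) (Rs G v S) (hP.res hv) (hK.sub (Rs_sub _ _))
        have h2 := ihK (Nb G v S) (hP.sub (Nb_sub _ _)) (hK.nb hv)
        have h3 := Col.split hv (Nat.choose_pos (by omega)) h1 h2
        have h4 : (ℓ + 1 + (K + 1) + 1).choose (K + 1) =
            (ℓ + (K + 1) + 1).choose (K + 1) + (ℓ + 1 + K + 1).choose K := by
          have e1 : ℓ + 1 + (K + 1) + 1 = (ℓ + K + 2) + 1 := by ring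
          have e2 : ℓ + (K + 1) + 1 = ℓ + K + 2 := by ring
          have e3 : ℓ + 1 + K + 1 = ℓ + K + 2 := by ring
          rw [e1, e2, e3, Nat.choose_succ_succ, add_comm]
        rw [h4]
        exact h3

lemma notri {S : Finset V} (h : KF G 3 S) {a b c : V} (ha : a ∈ S) (hb : b ∈ S) (hc : c ∈ S)
    (hab : G.Adj a b) (hbc : G.Adj b c) (hac : G.Adj a c) : False := by
  have := hab
  exact ind_of_KF (h.nb ha) b (mem_Nb.2 ⟨hb, hab⟩) c (mem_Nb.2 ⟨hc, hac⟩) hbc

/-- every induced `P₄` dominates -/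
def Dom (G : SimpleGraph V) (S : Finset V) : Prop :=
  ∀ a ∈ S, ∀ b ∈ S, ∀ c ∈ S, ∀ d ∈ S, P4 G a b c d → ∀ x ∈ S, x ≠ a → x ≠ b → x ≠ c → x ≠ d →
    G.Adj a x ∨ G.Adj b x ∨ G.Adj c x ∨ G.Adj d x

lemma NoP.dom {S : Finset V} (h : NoP G 1 S) : Dom G S := by
  intro a ha b hb c hc d hd hP x hx h1 h2 h3 h4
  by_contra hcon
  push Not at hcon
  have := h a ha b hb c hc d hd hP {x} (by simpa using hx) (by
    intro u hu w hw huw
    rw [Finset.mem_singleton] at hu hw
    rw [hu, hw] at huw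
    exact G.loopless.irrefl _ huw) (by
    intro y hy
    rw [Finset.mem_singleton] at hy
    rw [hy]
    exact ⟨hcon, h1, h2, h3, h4⟩)
  simp at this

/-- an induced five-cycle -/
def C5 (G : SimpleGraph V) (S : Finset V) (d : Fin 5 → V) : Prop :=
  (∀ i, d i ∈ S) ∧ ∀ i j, G.Adj (d i) (d j) ↔ (j = i + 1 ∨ j = i + 4)

lemma mkC5 {S : Finset V} {a b c d e : V} (ha : a ∈ S) (hb : b ∈ S) (hc : c ∈ S) (hd : d ∈ S)
    (he : e ∈ S) (h1 : G.Adj a b) (h2 : G.Adj b c) (h3 : G.Adj c d) (h4 : G.Adj d e)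
    (h5 : G.Adj e a) (n1 : ¬ G.Adj a c) (n2 : ¬ G.Adj b d) (n3 : ¬ G.Adj c e) (n4 : ¬ G.Adj d a)
    (n5 : ¬ G.Adj e b) : C5 G S ![a, b, c, d, e] := by
  have s1 := h1.symm
  have s2 := h2.symm
  have s3 := h3.symm
  have s4 := h4.symm
  have s5 := h5.symm
  have m1 : ¬ G.Adj c a := fun q => n1 q.symm
  have m2 : ¬ G.Adj d b := fun q => n2 q.symm
  have m3 : ¬ G.Adj e c := fun q => n3 q.symm
  have m4 : ¬ G.Adj a d := fun q => n4 q.symm
  have m5 : ¬ G.Adj b e := fun q => n5 q.symm
  refine ⟨?_, ?_⟩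
  · intro i
    fin_cases i
    · exact ha
    · exact hb
    · exact hc
    · exact hd
    · exact he
  · intro i j
    fin_cases i <;> fin_cases j
    all_goals first
      | exact iff_of_true (by assumption) (by decide)
      | exact iff_of_false (by assumption) (by decide)
      | exact iff_of_false (G.loopless.irrefl _) (by decide)

lemma exC5 {S : Finset V} (hK : KF G 3 S) (hD : Dom G S) (hC : ¬ Col G S 2) :
    ∃ d, C5 G S d := by
  classical
  by_contra hno
  push Not at hno
  apply hC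
  by_cases hP : ∀ a ∈ S, ∀ b ∈ S, ∀ c ∈ S, ∀ d ∈ S, ¬ P4 G a b c d
  · exact cograph S 2 hP hK
  · push Not at hP
    obtain ⟨a, ha, b, hb, c, hc, d, hd, hP⟩ := hP
    obtain ⟨hab, hbc, hcd, hac, hbd, had⟩ := id hP
    -- adjacent pair, one at `a`, the other at `c`
    have key1 : ∀ u ∈ S, ∀ w ∈ S, G.Adj u w → G.Adj a u → G.Adj c w → False := by
      intro u hu w hw huw hau hcw
      have n1 : ¬ G.Adj c u := fun q => notri hK hc hu hw q huw hcw
      have n2 : ¬ G.Adj a w := fun q => notri hK ha hu hw hau huw q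
      have n3 : ¬ G.Adj b u := fun q => notri hK ha hb hu hab q hau
      have n4 : ¬ G.Adj b w := fun q => notri hK hb hc hw hbc hcw q
      exact hno _ (mkC5 ha hu hw hc hb hau huw hcw.symm hbc.symm hab.symm n2
        (fun q => n1 q.symm) (fun q => n4 q.symm) (fun q => hac q.symm) n3)
    have key2 : ∀ u ∈ S, ∀ w ∈ S, G.Adj u w → G.Adj b u → G.Adj d w → ¬ G.Adj c u →
        ¬ G.Adj c w → False := by
      intro u hu w hw huw hbu hdw hcu hcw
      have n1 : ¬ G.Adj d u := fun q => notri hK hd hu hw q huw hdw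
      have n2 : ¬ G.Adj b w := fun q => notri hK hb hu hw hbu huw q
      exact hno _ (mkC5 hb hu hw hd hc hbu huw hdw.symm hcd.symm hbc.symm n2
        (fun q => n1 q.symm) (fun q => hcw q.symm) (fun q => hbd q.symm) hcu)
    refine ⟨fun x => if G.Adj a x ∨ G.Adj c x then 1 else 0, ?_, ?_⟩
    · intro x _
      dsimp only
      split_ifs <;> omega
    · intro u hu w hw huw
      dsimp only
      by_cases pu : G.Adj a u ∨ G.Adj c u <;> by_cases pw : G.Adj a w ∨ G.Adj c w
      · exfalso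
        rcases pu with pu | pu <;> rcases pw with pw | pw
        · exact notri hK ha hu hw pu huw pw
        · exact key1 u hu w hw huw pu pw
        · exact key1 w hw u hu huw.symm pw pu
        · exact notri hK hc hu hw pu huw pw
      · rw [if_pos pu, if_neg pw]; omega
      · rw [if_neg pu, if_pos pw]; omega
      · exfalso
        push Not at pu pw
        have ua : u ≠ a := fun q => pw.1 (q ▸ huw)
        have uc : u ≠ c := fun q => pw.2 (q ▸ huw)
        have wa : w ≠ a := fun q => pu.1 (q ▸ huw.symm)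
        have wc : w ≠ c := fun q => pu.2 (q ▸ huw.symm)
        have ub : u ≠ b := fun q => pu.1 (q ▸ hab)
        have ud : u ≠ d := fun q => pu.2 (q ▸ hcd)
        have wb : w ≠ b := fun q => pw.1 (q ▸ hab)
        have wd : w ≠ d := fun q => pw.2 (q ▸ hcd)
        have hu' := hD a ha b hb c hc d hd hP u hu ua ub uc ud
        have hw' := hD a ha b hb c hc d hd hP w hw wa wb wc wd
        rcases hu' with q | q | q | q
        · exact pu.1 q
        · rcases hw' with r | r | r | r
          · exact pw.1 r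
          · exact notri hK hb hu hw q huw r
          · exact pw.2 r
          · exact key2 u hu w hw huw q r pu.2 pw.2
        · exact pu.2 q
        · rcases hw' with r | r | r | r
          · exact pw.1 r
          · exact key2 w hw u hu huw.symm r q pw.2 pu.2
          · exact pw.2 r
          · exact notri hK hd hu hw q huw r

lemma pat : ∀ p : Fin 5 → Bool, (∀ j, ¬ (p j = true ∧ p (j + 1) = true)) →
    (∀ i, p (i + 1) = true ∨ p (i + 2) = true ∨ p (i + 3) = true ∨ p (i + 4) = true) →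
    ∃ i, ∀ j, p j = true ↔ (j = i + 1 ∨ j = i + 4) := by decide

lemma pat2 : ∀ p : Fin 5 → Bool, (∀ j, ¬ (p j = true ∧ p (j + 1) = true)) →
    (∀ i, p i = false → ((p (i + 2) = true ∧ p (i + 3) = false) ∨
      (p (i + 2) = false ∧ p (i + 3) = true))) → False := by decide

lemma f13 : ∀ i : Fin 5, ¬ (i + 3 = i + 1 + 1 ∨ i + 3 = i + 1 + 4) := by decide
lemma f24 : ∀ i : Fin 5, ¬ (i + 4 = i + 2 + 1 ∨ i + 4 = i + 2 + 4) := by decide
lemma f14 : ∀ i : Fin 5, ¬ (i + 4 = i + 1 + 1 ∨ i + 4 = i + 1 + 4) := by decide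
lemma f02 : ∀ i : Fin 5, ¬ (i + 2 = i + 1 ∨ i + 2 = i + 4) := by decide
lemma f03 : ∀ i : Fin 5, ¬ (i + 3 = i + 1 ∨ i + 3 = i + 4) := by decide
lemma f2 : ∀ i : Fin 5, i + 2 ≠ i := by decide
lemma f3 : ∀ i : Fin 5, i + 3 ≠ i := by decide

/-- structure: complete blow-up of the five-cycle -/
lemma blow {S : Finset V} (hK : KF G 3 S) (hD : Dom G S) {d : Fin 5 → V} (hd : C5 G S d) :
    ∃ κ : V → Fin 5, (∀ u ∈ S, ∀ j, G.Adj u (d j) ↔ (j = κ u + 1 ∨ j = κ u + 4)) ∧
      ∀ u ∈ S, ∀ w ∈ S, G.Adj u w ↔ (κ w = κ u + 1 ∨ κ w = κ u + 4) := by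
  classical
  obtain ⟨hdS, hdA⟩ := hd
  have h1 : ∀ u ∈ S, ∃ i : Fin 5, ∀ j, G.Adj u (d j) ↔ (j = i + 1 ∨ j = i + 4) := by
    intro u hu
    by_cases hud : ∃ i, u = d i
    · obtain ⟨i, rfl⟩ := hud
      exact ⟨i, fun j => hdA i j⟩
    · push Not at hud
      obtain ⟨i, hi⟩ := pat (fun j => decide (G.Adj u (d j))) (by
        intro j hj
        simp only [decide_eq_true_eq] at hj
        exact notri hK hu (hdS _) (hdS _) hj.1 ((hdA j (j + 1)).2 (Or.inl rfl)) hj.2) (by
        intro i
        simp only [decide_eq_true_eq]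
        have hP : P4 G (d (i + 1)) (d (i + 2)) (d (i + 3)) (d (i + 4)) := by
          refine ⟨(hdA _ _).2 ?_, (hdA _ _).2 ?_, (hdA _ _).2 ?_, fun q => ?_, fun q => ?_,
            fun q => ?_⟩
          · revert i; decide
          · revert i; decide
          · revert i; decide
          · exact f13 i ((hdA _ _).1 q)
          · exact f24 i ((hdA _ _).1 q)
          · exact f14 i ((hdA _ _).1 q)
        have := hD _ (hdS _) _ (hdS _) _ (hdS _) _ (hdS _) hP u hu (hud _) (hud _) (hud _) (hud _)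
        rcases this with q | q | q | q
        · exact Or.inl q.symm
        · exact Or.inr (Or.inl q.symm)
        · exact Or.inr (Or.inr (Or.inl q.symm))
        · exact Or.inr (Or.inr (Or.inr q.symm)))
      refine ⟨i, fun j => ?_⟩
      rw [← hi j, decide_eq_true_eq]
  choose! κ hκ using h1
  refine ⟨κ, hκ, ?_⟩
  have h2 : ∀ u ∈ S, ∀ w ∈ S, κ w = κ u + 1 → G.Adj u w := by
    intro u hu w hw hc
    by_contra hn
    have a1 : G.Adj u (d (κ u + 1)) := (hκ u hu _).2 (Or.inl rfl)
    have a2 : G.Adj u (d (κ u + 4)) := (hκ u hu _).2 (Or.inr rfl)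
    have hP : P4 G (d (κ u + 1)) u (d (κ u + 4)) (d (κ u + 3)) := by
      refine ⟨a1.symm, a2, (hdA _ _).2 ?_, fun q => ?_, fun q => ?_, fun q => ?_⟩
      · generalize κ u = i; revert i; decide
      · have := (hdA _ _).1 q; revert this; generalize κ u = i; revert i; decide
      · have := (hκ u hu _).1 q; revert this; generalize κ u = i; revert i; decide
      · have := (hdA _ _).1 q; revert this; generalize κ u = i; revert i; decide
    have e1 : w ≠ d (κ u + 1) := fun q => hn (q ▸ a1)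
    have e2 : w ≠ u := fun q => by
      rw [q] at hc
      revert hc
      generalize κ u = i; revert i; decide
    have e3 : w ≠ d (κ u + 4) := fun q => hn (q ▸ a2)
    have e4 : w ≠ d (κ u + 3) := fun q => by
      have h3 : G.Adj (d (κ u + 3)) (d (κ u + 4)) := (hdA _ _).2 (by
        generalize κ u = i; revert i; decide)
      rw [← q] at h3
      have := (hκ w hw _).1 h3
      rw [hc] at this
      revert this
      generalize κ u = i; revert i; decide
    rcases hD _ (hdS _) _ hu _ (hdS _) _ (hdS _) hP w hw e1 e2 e3 e4 with q | q | q | q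
    · have := (hκ w hw _).1 q.symm
      rw [hc] at this
      revert this
      generalize κ u = i; revert i; decide
    · exact hn q
    · have := (hκ w hw _).1 q.symm
      rw [hc] at this
      revert this
      generalize κ u = i; revert i; decide
    · have := (hκ w hw _).1 q.symm
      rw [hc] at this
      revert this
      generalize κ u = i; revert i; decide
  intro u hu w hw
  constructor
  · intro huw
    by_contra hcon
    push Not at hcon
    have hcase : ∃ j : Fin 5, (j = κ u + 1 ∨ j = κ u + 4) ∧ (j = κ w + 1 ∨ j = κ w + 4) := by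
      revert hcon
      generalize κ u = i
      generalize κ w = k
      revert i k
      decide
    obtain ⟨j, hj1, hj2⟩ := hcase
    exact notri hK hu hw (hdS j) huw ((hκ w hw j).2 hj2) ((hκ u hu j).2 hj1)
  · rintro (h | h)
    · exact h2 u hu w hw h
    · refine (h2 w hw u hu ?_).symm
      rw [h]
      generalize κ u = i; revert i; decide

/-- every triangle-free `(P₄ + 2P₁)`-free graph is 3-colourable -/
lemma three (S : Finset V) (hP : NoP G 2 S) (hK : KF G 3 S) : Col G S 3 := by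
  classical
  rcases S.eq_empty_or_nonempty with rfl | ⟨v, hv⟩
  · exact Col.empty.mono (Nat.zero_le _)
  by_contra hno
  have hR : ∀ x ∈ S, ¬ Col G (Rs G x S) 2 := by
    intro x hx hc
    exact hno (Col.split hx (by norm_num) hc (Col.of_ind (ind_of_KF (hK.nb hx))))
  have hS : ∀ x ∈ S, ∀ p ∈ Rs G x S, ∀ a ∈ Rs G x S, ∀ b ∈ Rs G x S, G.Adj a b →
      ¬ G.Adj p a → ¬ G.Adj p b → (∃ y ∈ Rs G x S, G.Adj p y) ∧
      ∀ y ∈ Rs G x S, G.Adj p y → (G.Adj y a ∧ ¬ G.Adj y b) ∨ (¬ G.Adj y a ∧ G.Adj y b) := by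
    intro x hx p hp a ha b hb hab hpa hpb
    have hK' : KF G 3 (Rs G x S) := hK.sub (Rs_sub _ _)
    have hD' : Dom G (Rs G x S) := (hP.res hx).dom
    obtain ⟨d, hd⟩ := exC5 hK' hD' (hR x hx)
    obtain ⟨κ, h1, h2⟩ := blow hK' hD' hd
    refine ⟨⟨d (κ p + 1), hd.1 _, (h1 p hp _).2 (Or.inl rfl)⟩, ?_⟩
    intro y hy hpy
    rw [h2 _ ha _ hb] at hab
    rw [h2 _ hp _ ha] at hpa
    rw [h2 _ hp _ hb] at hpb
    rw [h2 _ hp _ hy] at hpy
    rw [h2 _ hy _ ha, h2 _ hy _ hb]
    revert hab hpa hpb hpy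
    generalize κ p = i
    generalize κ a = j
    generalize κ b = k
    generalize κ y = l
    revert i j k l
    decide
  obtain ⟨c, hc⟩ := exC5 (hK.sub (Rs_sub v S)) (hP.res hv).dom (hR v hv)
  have hcS : ∀ i, c i ∈ S := fun i => Rs_sub _ _ (hc.1 i)
  have hcv : ∀ i, c i ≠ v ∧ ¬ G.Adj v (c i) := fun i => (mem_Rs.1 (hc.1 i)).2
  have hvR : ∀ i, v ∈ Rs G (c i) S := fun i =>
    mem_Rs.2 ⟨hv, fun q => (hcv i).1 q.symm, fun q => (hcv i).2 q.symm⟩
  have hcinj : ∀ i j, c i = c j → i = j := by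
    intro i j hij
    have h1 := hc.2 i
    have h2 := hc.2 j
    rw [hij] at h1
    have h3 : ∀ k, (k = i + 1 ∨ k = i + 4) ↔ (k = j + 1 ∨ k = j + 4) := fun k =>
      (h1 k).symm.trans (h2 k)
    revert h3
    clear h1 h2 hij
    revert i j
    decide
  have h2R : ∀ i, c (i + 2) ∈ Rs G (c i) S := by
    intro i
    refine mem_Rs.2 ⟨hcS _, fun q => ?_, fun q => ?_⟩
    · exact f2 i (hcinj _ _ q)
    · exact f02 i ((hc.2 _ _).1 q)
  have h3R : ∀ i, c (i + 3) ∈ Rs G (c i) S := by
    intro i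
    refine mem_Rs.2 ⟨hcS _, fun q => ?_, fun q => ?_⟩
    · exact f3 i (hcinj _ _ q)
    · exact f03 i ((hc.2 _ _).1 q)
  have h23 : ∀ i, G.Adj (c (i + 2)) (c (i + 3)) := by
    intro i
    refine (hc.2 _ _).2 ?_
    revert i; decide
  have main := fun i => hS (c i) (hcS i) v (hvR i) (c (i + 2)) (h2R i) (c (i + 3)) (h3R i) (h23 i)
    (hcv _).2 (hcv _).2
  obtain ⟨y, hyR, hvy⟩ := (main 0).1
  have hyS := Rs_sub _ _ hyR
  refine pat2 (fun j => decide (G.Adj y (c j))) ?_ ?_
  · intro j hj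
    simp only [decide_eq_true_eq] at hj
    exact notri hK hyS (hcS _) (hcS _) hj.1 ((hc.2 j (j + 1)).2 (Or.inl rfl)) hj.2
  · intro i hi
    simp only [decide_eq_false_iff_not] at hi
    have hyi : y ∈ Rs G (c i) S :=
      mem_Rs.2 ⟨hyS, fun q => (hcv i).2 (q ▸ hvy), fun q => hi q.symm⟩
    simp only [decide_eq_true_eq, decide_eq_false_iff_not]
    exact (main i).2 y hyi hvy

/-- improved bound -/
lemma better : ∀ (m K : ℕ) (S : Finset V), NoP G (m + 2) S → KF G (K + 3) S →
    ∃ n, 1 ≤ n ∧ Col G S n ∧ n + (m + K).choose K = (m + K + 4).choose (K + 1) := by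
  intro m
  induction m with
  | zero =>
    intro K
    induction K with
    | zero =>
      intro S hP hK
      exact ⟨3, by norm_num, three S hP hK, by simp⟩
    | succ K ihK =>
      intro S hP hK
      rcases S.eq_empty_or_nonempty with rfl | ⟨v, hv⟩
      · have h5 : 2 ≤ (0 + (K + 1) + 4).choose (K + 1 + 1) := by
          have e : 0 + (K + 1) + 4 = (K + 4) + 1 := by ring
          rw [e, Nat.choose_succ_succ]
          have q1 : 0 < (K + 4).choose (K + 1) := Nat.choose_pos (by omega)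
          have q2 : 0 < (K + 4).choose (K + 2) := Nat.choose_pos (by omega)
          have q3 : (K + 1).succ = K + 2 := rfl
          rw [q3]
          omega
        refine ⟨(0 + (K + 1) + 4).choose (K + 1 + 1) - 1, by omega,
          Col.empty.mono (Nat.zero_le _), ?_⟩
        rw [Nat.zero_add (K + 1), Nat.choose_self]
        rw [Nat.zero_add (K + 1)] at h5
        omega
      · have h1 := binom_col 1 (K + 2) (Rs G v S) (hP.res hv) (hK.sub (Rs_sub _ _))
        obtain ⟨n, hn1, hn2, hn3⟩ := ihK (Nb G v S) (hP.sub (Nb_sub _ _)) (hK.nb hv)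
        have h3 := Col.split hv (Nat.choose_pos (by omega)) h1 hn2
        refine ⟨_, by omega, h3, ?_⟩
        rw [Nat.zero_add, Nat.choose_self] at hn3 ⊢
        have e1 : 1 + (K + 2) + 1 = K + 4 := by ring
        have e2 : K + 1 + 4 = (K + 4) + 1 := by ring
        have e4 : (K + 4 + 1).choose (K + 1 + 1) = (K + 4).choose (K + 1) + (K + 4).choose (K + 2) :=
          Nat.choose_succ_succ _ _
        rw [e1, e2, e4]
        omega
  | succ m ih =>
    intro K
    induction K with
    | zero =>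
      intro S hP hK
      rcases S.eq_empty_or_nonempty with rfl | ⟨v, hv⟩
      · exact ⟨m + 4, by omega, Col.empty.mono (Nat.zero_le _), by simp⟩
      · obtain ⟨n, hn1, hn2, hn3⟩ := ih 0 (Rs G v S) (hP.res hv) (hK.sub (Rs_sub _ _))
        have h3 := Col.split hv hn1 hn2 (Col.of_ind (ind_of_KF (hK.nb hv)))
        refine ⟨_, by omega, h3, ?_⟩
        simp only [Nat.choose_zero_right, zero_add, Nat.choose_one_right, add_zero] at hn3 ⊢
        omega
    | succ K ihK =>
      intro S hP hK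
      have c1 : (m + 1 + (K + 1) + 4).choose (K + 1 + 1) =
          (m + (K + 1) + 4).choose (K + 1 + 1) + (m + 1 + K + 4).choose (K + 1) := by
        have e1 : m + 1 + (K + 1) + 4 = (m + K + 5) + 1 := by ring
        have e2 : m + (K + 1) + 4 = m + K + 5 := by ring
        have e3 : m + 1 + K + 4 = m + K + 5 := by ring
        rw [e1, e2, e3, Nat.choose_succ_succ, add_comm]
      have c2 : (m + 1 + (K + 1)).choose (K + 1) =
          (m + (K + 1)).choose (K + 1) + (m + 1 + K).choose K := by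
        have e1 : m + 1 + (K + 1) = (m + K + 1) + 1 := by ring
        have e2 : m + (K + 1) = m + K + 1 := by ring
        have e3 : m + 1 + K = m + K + 1 := by ring
        rw [e1, e2, e3, Nat.choose_succ_succ, add_comm]
      rcases S.eq_empty_or_nonempty with rfl | ⟨v, hv⟩
      · obtain ⟨n, hn1, _, hn3⟩ := ih (K + 1) ∅ (by
          intro a ha; simp at ha) (hK)
        obtain ⟨n', hn1', _, hn3'⟩ := ihK ∅ (by intro a ha; simp at ha) (by
          intro T hT hT'
          rw [Finset.subset_empty] at hT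
          rw [hT] at hT'
          have := hT'.card_eq
          simp at this)
        exact ⟨n + n', by omega, Col.empty.mono (Nat.zero_le _), by omega⟩
      · obtain ⟨n, hn1, hn2, hn3⟩ := ih (K + 1) (Rs G v S) (hP.res hv) (hK.sub (Rs_sub _ _))
        obtain ⟨n', hn1', hn2', hn3'⟩ := ihK (Nb G v S) (hP.sub (Nb_sub _ _)) (hK.nb hv)
        have h3 := Col.split hv hn1 hn2 hn2'
        exact ⟨n + n', by omega, h3, by omega⟩




/-- The graph `P₄ + ℓP₁`. -/
def P4l (ℓ : ℕ) : SimpleGraph (Fin 4 ⊕ Fin ℓ) :=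
  SimpleGraph.pathGraph 4 ⊕g (⊥ : SimpleGraph (Fin ℓ))

/-- `G` is `(P₄ + ℓP₁, K_k)`-free. -/
def Free (k ℓ : ℕ) {V : Type} (G : SimpleGraph V) : Prop :=
  IsEmpty (P4l ℓ ↪g G) ∧ G.CliqueFree k

/-- `M_k(ℓ)`: the least integer `M` with `χ(G) ≤ M` for every `(P₄ + ℓP₁, K_k)`-free graph `G`. -/
noncomputable def M (k ℓ : ℕ) : ℕ :=
  sInf {n | ∀ (V : Type) [Finite V] (G : SimpleGraph V), Free k ℓ G → G.Colorable n}

/-- `F_k(m)`: the largest chromatic number of a `K_k`-free graph without `m + 1` pairwise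
non-adjacent vertices (the least common upper bound). -/
noncomputable def F (k m : ℕ) : ℕ :=
  sInf {n | ∀ (V : Type) [Finite V] (G : SimpleGraph V), G.CliqueFree k →
    (∀ I : Finset V, G.IsIndepSet (I : Set V) → I.card ≤ m) → G.Colorable n}

lemma colorable_of_Col {V : Type} [Fintype V] {G : SimpleGraph V} {n : ℕ}
    (h : Col G Finset.univ n) : G.Colorable n := by
  obtain ⟨f, h1, h2⟩ := h
  exact ⟨SimpleGraph.Coloring.mk (fun v => (⟨f v, h1 v (Finset.mem_univ _)⟩ : Fin n))
    (fun {u v} huv he => h2 u (Finset.mem_univ _) v (Finset.mem_univ _) huv (Fin.ext_iff.1 he))⟩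

lemma Col_of_colorable {V : Type} {G : SimpleGraph V} (S : Finset V) {n : ℕ}
    (h : (G.induce (S : Set V)).Colorable n) : Col G S n := by
  classical
  obtain ⟨C⟩ := h
  refine ⟨fun v => if hv : v ∈ S then (C ⟨v, hv⟩ : ℕ) else 0, ?_, ?_⟩
  · intro v hv
    simp only [hv, dif_pos]
    exact (C ⟨v, hv⟩).2
  · intro u hu v hv huv
    simp only [hu, hv, dif_pos]
    intro he
    have : (G.induce (S : Set V)).Adj ⟨u, hu⟩ ⟨v, hv⟩ := huv
    exact C.valid this (Fin.ext he)

lemma P4l_adj_inl (ℓ : ℕ) (i j : Fin 4) :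
    (P4l ℓ).Adj (Sum.inl i) (Sum.inl j) ↔ i.val + 1 = j.val ∨ j.val + 1 = i.val := by
  rw [P4l, SimpleGraph.sum_adj_inl, SimpleGraph.pathGraph_adj]

lemma KF_of_cliqueFree {V : Type} [DecidableEq V] {G : SimpleGraph V} {k : ℕ} (h : G.CliqueFree k)
    (S : Finset V) : KF G k S := fun T _ => h T

lemma NoP_of_free {V : Type} [DecidableEq V] {G : SimpleGraph V} [DecidableRel G.Adj] {ℓ : ℕ}
    (h : IsEmpty (P4l ℓ ↪g G)) (S : Finset V) : NoP G ℓ S := by
  intro a _ b _ c _ d _ hP I _ hI hx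
  by_contra hcon
  push Not at hcon
  obtain ⟨J, hJI, hJ⟩ := Finset.exists_subset_card_eq hcon
  apply h.false
  let e : Fin ℓ ≃ J := (Finset.equivFinOfCardEq hJ).symm
  have heI : ∀ i, (e i : V) ∈ I := fun i => hJI (e i).2
  obtain ⟨hab, hbc, hcd, hac, hbd, had⟩ := hP
  have nab : a ≠ b := hab.ne
  have nbc : b ≠ c := hbc.ne
  have ncd : c ≠ d := hcd.ne
  have nac : a ≠ c := fun q => had (q ▸ hcd)
  have nbd : b ≠ d := fun q => had (q ▸ hab)
  have nad : a ≠ d := fun q => hac (q ▸ hcd.symm)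
  refine ⟨⟨Sum.elim ![a, b, c, d] (fun i => (e i : V)), ?_⟩, ?_⟩
  · intro x y hxy
    rcases x with x | x <;> rcases y with y | y
    · simp only [Sum.elim_inl] at hxy
      congr 1
      fin_cases x <;> fin_cases y <;> simp_all
    · simp only [Sum.elim_inl, Sum.elim_inr] at hxy
      exfalso
      have h5 := (hx _ (heI y)).2
      fin_cases x
      · exact h5.1 hxy.symm
      · exact h5.2.1 hxy.symm
      · exact h5.2.2.1 hxy.symm
      · exact h5.2.2.2 hxy.symm
    · simp only [Sum.elim_inl, Sum.elim_inr] at hxy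
      exfalso
      have h5 := (hx _ (heI x)).2
      fin_cases y
      · exact h5.1 hxy
      · exact h5.2.1 hxy
      · exact h5.2.2.1 hxy
      · exact h5.2.2.2 hxy
    · simp only [Sum.elim_inr] at hxy
      rw [e.injective (Subtype.ext hxy)]
  · intro x y
    rcases x with x | x <;> rcases y with y | y
    · rw [P4l_adj_inl]
      change G.Adj (![a, b, c, d] x) (![a, b, c, d] y) ↔ _
      have hba := hab.symm
      have hcb := hbc.symm
      have hdc := hcd.symm
      have hca : ¬ G.Adj c a := fun q => hac q.symm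
      have hdb : ¬ G.Adj d b := fun q => hbd q.symm
      have hda : ¬ G.Adj d a := fun q => had q.symm
      fin_cases x <;> fin_cases y <;> simp [hab, hbc, hcd, hac, hbd, had, hba, hcb, hdc, hca, hdb, hda]
    · change G.Adj (![a, b, c, d] x) (e y : V) ↔ _
      have h5 := (hx _ (heI y)).1
      have h2 : ¬ (P4l ℓ).Adj (Sum.inl x) (Sum.inr y) := by simp [P4l]
      refine iff_of_false ?_ h2
      fin_cases x
      · exact h5.1
      · exact h5.2.1
      · exact h5.2.2.1
      · exact h5.2.2.2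
    · change G.Adj (e x : V) (![a, b, c, d] y) ↔ _
      have h5 := (hx _ (heI x)).1
      have h2 : ¬ (P4l ℓ).Adj (Sum.inr x) (Sum.inl y) := by simp [P4l]
      refine iff_of_false ?_ h2
      rw [SimpleGraph.adj_comm]
      fin_cases y
      · exact h5.1
      · exact h5.2.1
      · exact h5.2.2.1
      · exact h5.2.2.2
    · change G.Adj (e x : V) (e y : V) ↔ _
      have h2 : ¬ (P4l ℓ).Adj (Sum.inr x) (Sum.inr y) := by simp [P4l]
      have h3 := hI _ (heI x) _ (heI y)
      simp [h2, h3]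


lemma isEmpty_of_NoP {V : Type} [DecidableEq V] {G : SimpleGraph V} [DecidableRel G.Adj] {ℓ : ℕ}
    (S : Finset V) (h : NoP G ℓ S) : IsEmpty (P4l ℓ ↪g G.induce (S : Set V)) := by
  refine ⟨fun φ => ?_⟩
  have adj : ∀ x y, G.Adj (φ x : V) (φ y : V) ↔ (P4l ℓ).Adj x y := by
    intro x y
    have := φ.map_rel_iff (a := x) (b := y)
    rw [← this]
    rfl
  have mem : ∀ x, (φ x : V) ∈ S := fun x => (φ x).2
  have inj : ∀ x y, (φ x : V) = φ y → x = y := fun x y hxy => φ.injective (Subtype.ext hxy)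
  have h1 := h _ (mem (Sum.inl 0)) _ (mem (Sum.inl 1)) _ (mem (Sum.inl 2)) _ (mem (Sum.inl 3))
    (by
      refine ⟨?_, ?_, ?_, ?_, ?_, ?_⟩ <;> rw [adj, P4l_adj_inl] <;> simp)
    (Finset.univ.image (fun i : Fin ℓ => (φ (Sum.inr i) : V)))
    (by
      intro x hx
      obtain ⟨i, _, rfl⟩ := Finset.mem_image.1 hx
      exact mem _)
    (by
      intro x hx y hy
      obtain ⟨i, _, rfl⟩ := Finset.mem_image.1 hx
      obtain ⟨j, _, rfl⟩ := Finset.mem_image.1 hy
      rw [adj]
      simp [P4l])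
    (by
      intro x hx
      obtain ⟨i, _, rfl⟩ := Finset.mem_image.1 hx
      refine ⟨⟨?_, ?_, ?_, ?_⟩, ?_, ?_, ?_, ?_⟩
      · rw [adj]; simp [P4l]
      · rw [adj]; simp [P4l]
      · rw [adj]; simp [P4l]
      · rw [adj]; simp [P4l]
      · intro q; have := inj _ _ q; simp at this
      · intro q; have := inj _ _ q; simp at this
      · intro q; have := inj _ _ q; simp at this
      · intro q; have := inj _ _ q; simp at this)
  rw [Finset.card_image_of_injective _ (fun i j hij => Sum.inr_injective (inj _ _ hij)),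
    Finset.card_univ, Fintype.card_fin] at h1
  exact lt_irrefl _ h1

lemma free_card {V : Type} {G : SimpleGraph V} {ℓ : ℕ} (φ : P4l ℓ ↪g G) :
    ∃ I : Finset V, G.IsIndepSet (I : Set V) ∧ I.card = ℓ + 2 := by
  classical
  set s : Finset (Fin 4 ⊕ Fin ℓ) := {Sum.inl 0, Sum.inl 2} ∪ Finset.univ.image Sum.inr with hs
  refine ⟨s.map φ.toEmbedding, ?_, ?_⟩
  · intro x hx y hy _ hadj
    rw [Finset.mem_coe, Finset.mem_map] at hx hy
    obtain ⟨a, ha, rfl⟩ := hx
    obtain ⟨b, hb, rfl⟩ := hy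
    have hab : (P4l ℓ).Adj a b := φ.map_rel_iff.1 hadj
    rw [hs] at ha hb
    simp only [Finset.mem_union, Finset.mem_insert, Finset.mem_singleton, Finset.mem_image,
      Finset.mem_univ, true_and] at ha hb
    rcases ha with (rfl | rfl) | ⟨i, rfl⟩ <;> rcases hb with (rfl | rfl) | ⟨j, rfl⟩
    all_goals first
      | (rw [P4l_adj_inl] at hab; simp at hab)
      | (simp [P4l] at hab)
  · rw [Finset.card_map, hs, Finset.card_union_of_disjoint]
    · rw [Finset.card_image_of_injective _ Sum.inr_injective, Finset.card_univ, Fintype.card_fin,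
        Finset.card_pair (by simp)]
      omega
    · rw [Finset.disjoint_left]
      intro x hx hx'
      obtain ⟨i, _, rfl⟩ := Finset.mem_image.1 hx'
      simp at hx

/-- `F_k(m)` is a valid bound. -/
lemma F_valid (K m : ℕ) : ∀ (V : Type) [Finite V] (G : SimpleGraph V), G.CliqueFree (K + 2) →
    (∀ I : Finset V, G.IsIndepSet (I : Set V) → I.card ≤ m) → G.Colorable (F (K + 2) m) := by
  have hne : {n | ∀ (V : Type) [Finite V] (G : SimpleGraph V), G.CliqueFree (K + 2) →
    (∀ I : Finset V, G.IsIndepSet (I : Set V) → I.card ≤ m) → G.Colorable n}.Nonempty := by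
    refine ⟨(m + K).choose K, ?_⟩
    intro V _ G hG hI
    classical
    have := Fintype.ofFinite V
    refine colorable_of_Col (ramsey_col K m Finset.univ (KF_of_cliqueFree hG _) ?_)
    intro I _ hI'
    exact hI I (fun a ha b hb _ => hI' a ha b hb)
  exact Nat.sInf_mem hne

/-- `M_k(ℓ)` is a valid bound. -/
lemma M_valid (K ℓ : ℕ) : ∀ (V : Type) [Finite V] (G : SimpleGraph V),
    Free (K + 2) ℓ G → G.Colorable (M (K + 2) ℓ) := by
  have hne : {n | ∀ (V : Type) [Finite V] (G : SimpleGraph V),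
    Free (K + 2) ℓ G → G.Colorable n}.Nonempty := by
    refine ⟨(ℓ + K + 1).choose K, ?_⟩
    intro V _ G hG
    classical
    have := Fintype.ofFinite V
    exact colorable_of_Col (binom_col ℓ K Finset.univ (NoP_of_free hG.1 _)
      (KF_of_cliqueFree hG.2 _))
  exact Nat.sInf_mem hne

lemma M_le {k ℓ n : ℕ} (h : ∀ (V : Type) [Finite V] (G : SimpleGraph V), Free k ℓ G → G.Colorable n) :
    M k ℓ ≤ n := Nat.sInf_le h

lemma F_le {k m n : ℕ} (h : ∀ (V : Type) [Finite V] (G : SimpleGraph V), G.CliqueFree k →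
    (∀ I : Finset V, G.IsIndepSet (I : Set V) → I.card ≤ m) → G.Colorable n) :
    F k m ≤ n := Nat.sInf_le h

/-- `K_{k-1}` shows `M_k(ℓ) ≥ k - 1`. -/
lemma M_ge (K ℓ : ℕ) : K + 1 ≤ M (K + 2) ℓ := by
  have h := M_valid K ℓ (Fin (K + 1)) ⊤ ⟨⟨fun φ => ?_⟩, ?_⟩
  · have := SimpleGraph.Colorable.card_le_of_pairwise_adj h (id : Fin (K + 1) → Fin (K + 1))
      (fun i j hij => hij)
    simpa using this
  · have h0 : ¬ (P4l ℓ).Adj (Sum.inl 0) (Sum.inl 2) := by rw [P4l_adj_inl]; simp
    apply h0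
    rw [← φ.map_rel_iff]
    rw [SimpleGraph.top_adj]
    intro h
    have := φ.injective h
    simp at this
  · exact SimpleGraph.cliqueFree_of_card_lt (by simp)

lemma sandwich (K ℓ : ℕ) (hℓ : 1 ≤ ℓ) :
    F (K + 3) (ℓ + 1) ≤ M (K + 3) ℓ ∧ M (K + 3) ℓ ≤ F (K + 3) (ℓ - 1) + 4 * M (K + 2) ℓ := by
  constructor
  · refine F_le ?_
    intro V _ G hG hI
    refine M_valid (K + 1) ℓ V G ⟨⟨fun φ => ?_⟩, hG⟩
    obtain ⟨I, h1, h2⟩ := free_card φ
    have := hI I h1
    omega
  · refine M_le ?_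
    intro V _ G hG
    classical
    have := Fintype.ofFinite V
    refine colorable_of_Col (step hℓ Finset.univ (NoP_of_free hG.1 _) (KF_of_cliqueFree hG.2 _)
      ?_ ?_ ?_)
    · intro N _ hN hA
      refine Col_of_colorable N (F_valid (K + 1) (ℓ - 1) _ _ ?_ ?_)
      · intro T hT
        refine hN (T.map (Function.Embedding.subtype _)) ?_ ?_
        · intro x hx
          obtain ⟨y, _, rfl⟩ := Finset.mem_map.1 hx
          exact y.2
        · exact hT.map.mono (SimpleGraph.map_comap_le _ _)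
      · intro I hI
        rw [← Finset.card_map (Function.Embedding.subtype _)]
        refine hA _ ?_ ?_
        · intro x hx
          obtain ⟨y, _, rfl⟩ := Finset.mem_map.1 hx
          exact y.2
        · intro a ha b hb hab
          obtain ⟨a', ha', rfl⟩ := Finset.mem_map.1 ha
          obtain ⟨b', hb', rfl⟩ := Finset.mem_map.1 hb
          have hne : a' ≠ b' := fun e => G.loopless.irrefl _ (e ▸ hab)
          exact hI ha' hb' hne hab
    · intro N _ hNP hN
      refine Col_of_colorable N (M_valid K ℓ _ _ ⟨isEmpty_of_NoP N hNP, ?_⟩)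
      intro T hT
      refine hN (T.map (Function.Embedding.subtype _)) ?_ ?_
      · intro x hx
        obtain ⟨y, _, rfl⟩ := Finset.mem_map.1 hx
        exact y.2
      · exact hT.map.mono (SimpleGraph.map_comap_le _ _)
    · have := M_ge K ℓ
      omega

lemma M_two (ℓ : ℕ) : M 2 ℓ = 1 := by
  apply le_antisymm
  · refine M_le ?_
    intro V _ G hG
    classical
    have := Fintype.ofFinite V
    exact colorable_of_Col (Col.of_ind (ind_of_KF (KF_of_cliqueFree hG.2 _)))
  · exact M_ge 0 ℓ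

lemma M_binom (K ℓ : ℕ) : M (K + 2) ℓ ≤ (ℓ + K + 1).choose K := by
  refine M_le ?_
  intro V _ G hG
  classical
  have := Fintype.ofFinite V
  exact colorable_of_Col (binom_col ℓ K Finset.univ (NoP_of_free hG.1 _)
    (KF_of_cliqueFree hG.2 _))

lemma M_better (K m : ℕ) :
    M (K + 3) (m + 2) + (m + K).choose K ≤ (m + K + 4).choose (K + 1) := by
  have hle : (m + K).choose K ≤ (m + K + 4).choose (K + 1) := by
    obtain ⟨n, _, _, h⟩ := better (V := Empty) (G := ⊥) m K ∅
      (by intro a ha; simp at ha) (by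
        intro T hT hT'
        rw [Finset.subset_empty] at hT
        rw [hT] at hT'
        have := hT'.card_eq
        simp at this)
    omega
  have h : M (K + 3) (m + 2) ≤ (m + K + 4).choose (K + 1) - (m + K).choose K := by
    refine M_le ?_
    intro V _ G hG
    classical
    have := Fintype.ofFinite V
    obtain ⟨n, _, h2, h3⟩ := better m K (Finset.univ : Finset V) (NoP_of_free hG.1 _)
      (KF_of_cliqueFree hG.2 _)
    exact colorable_of_Col (h2.mono (by omega))
  omega

/-- the five-cycle -/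
def c5 : SimpleGraph (Fin 5) where
  Adj i j := j = i + 1 ∨ i = j + 1
  symm := ⟨fun _ _ h => h.symm⟩
  loopless := ⟨by decide⟩

instance : DecidableRel c5.Adj := fun i j => by unfold c5; infer_instance

/-- adjacency lists of the Groetzsch graph -/
def grL : Fin 11 → List (Fin 11) :=
  ![[1, 4, 6, 9], [0, 2, 5, 7], [1, 3, 6, 8], [2, 4, 7, 9], [0, 3, 5, 8], [1, 4, 10], [0, 2, 10],
    [1, 3, 10], [2, 4, 10], [0, 3, 10], [5, 6, 7, 8, 9]]

/-- the Groetzsch graph -/
def gr : SimpleGraph (Fin 11) where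
  Adj i j := j ∈ grL i
  symm := ⟨by decide⟩
  loopless := ⟨by decide⟩

instance : DecidableRel gr.Adj := fun i j => by unfold gr; infer_instance

lemma cf3 {n : ℕ} (H : SimpleGraph (Fin n)) (h : ∀ a b, H.Adj a b → ∀ c, H.Adj b c → ¬ H.Adj a c) :
    H.CliqueFree 3 := by
  intro s hs
  rw [SimpleGraph.is3Clique_iff] at hs
  obtain ⟨a, b, c, hab, hac, hbc, _⟩ := hs
  exact h a b hab c hbc hac

lemma c5_free : Free 3 2 c5 := by
  refine ⟨⟨fun φ => ?_⟩, cf3 _ (by decide)⟩
  have := Fintype.card_le_of_embedding φ.toEmbedding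
  simp at this

lemma c5_col : ¬ c5.Colorable 2 := by
  rintro ⟨C⟩
  have h : ∀ f : Fin 5 → Fin 2, ∃ i, f i = f (i + 1) := by decide
  obtain ⟨i, hi⟩ := h C
  exact C.valid (show c5.Adj i (i + 1) from Or.inl rfl) hi

/-- `x` is different from and not adjacent to `a`, `b`, `c`, `d` in the Groetzsch graph -/
def nn (a b c d x : Fin 11) : Prop :=
  (x ≠ a ∧ x ≠ b ∧ x ≠ c ∧ x ≠ d) ∧ ¬ gr.Adj a x ∧ ¬ gr.Adj b x ∧ ¬ gr.Adj c x ∧ ¬ gr.Adj d x

instance (a b c d x : Fin 11) : Decidable (nn a b c d x) := by unfold nn; infer_instance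

/-- no three pairwise non-adjacent common non-neighbours of `a`, `b`, `c`, `d` -/
def Q3 (a b c d : Fin 11) : Prop :=
  ∀ x, nn a b c d x → ∀ y, nn a b c d y ∧ y ≠ x ∧ ¬ gr.Adj x y →
    ∀ z, nn a b c d z ∧ z ≠ x ∧ ¬ gr.Adj x z ∧ z ≠ y → gr.Adj y z

instance (a b c d : Fin 11) : Decidable (Q3 a b c d) := by unfold Q3; infer_instance

set_option maxRecDepth 100000 in
lemma gr_P4 : ∀ b c : Fin 11, gr.Adj b c → ∀ a, gr.Adj a b ∧ ¬ gr.Adj a c →
    ∀ d, gr.Adj c d ∧ ¬ gr.Adj b d ∧ ¬ gr.Adj a d → Q3 a b c d := by decide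

lemma gr_free : Free 3 3 gr := by
  refine ⟨⟨fun φ => ?_⟩, cf3 _ (by decide)⟩
  have adj : ∀ x y, gr.Adj (φ x) (φ y) ↔ (P4l 3).Adj x y := fun x y => φ.map_rel_iff
  have inj : ∀ x y, φ x = φ y → x = y := fun x y hxy => φ.injective hxy
  have hp : ∀ i j : Fin 4, gr.Adj (φ (Sum.inl i)) (φ (Sum.inl j)) ↔
      (i.val + 1 = j.val ∨ j.val + 1 = i.val) := fun i j => by rw [adj, P4l_adj_inl]
  have hq : ∀ (i : Fin 4) (j : Fin 3), ¬ gr.Adj (φ (Sum.inl i)) (φ (Sum.inr j)) := fun i j => by
    rw [adj]; simp [P4l]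
  have hr : ∀ (i j : Fin 3), ¬ gr.Adj (φ (Sum.inr i)) (φ (Sum.inr j)) := fun i j => by
    rw [adj]; simp [P4l]
  have hn : ∀ (i : Fin 4) (j : Fin 3), φ (Sum.inr j) ≠ φ (Sum.inl i) := fun i j q => by
    have := inj _ _ q; simp at this
  have hm : ∀ (i j : Fin 3), i ≠ j → φ (Sum.inr i) ≠ φ (Sum.inr j) := fun i j hij q => by
    have := inj _ _ q; simp at this; exact hij this
  have hnn : ∀ j : Fin 3, nn (φ (Sum.inl 0)) (φ (Sum.inl 1)) (φ (Sum.inl 2)) (φ (Sum.inl 3))
      (φ (Sum.inr j)) := fun j =>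
    ⟨⟨hn _ _, hn _ _, hn _ _, hn _ _⟩, hq _ _, hq _ _, hq _ _, hq _ _⟩
  exact hr 1 2 (gr_P4 (φ (Sum.inl 1)) (φ (Sum.inl 2)) ((hp _ _).2 (by decide)) (φ (Sum.inl 0))
    ⟨(hp _ _).2 (by decide), fun q => absurd ((hp _ _).1 q) (by decide)⟩ (φ (Sum.inl 3))
    ⟨(hp _ _).2 (by decide), fun q => absurd ((hp _ _).1 q) (by decide),
    fun q => absurd ((hp _ _).1 q) (by decide)⟩
    (φ (Sum.inr 0)) (hnn 0) (φ (Sum.inr 1)) ⟨hnn 1, hm _ _ (by decide), hr _ _⟩
    (φ (Sum.inr 2)) ⟨hnn 2, hm _ _ (by decide), hr _ _, hm _ _ (by decide)⟩)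

set_option maxRecDepth 100000 in
lemma gr_aux : ∀ u0 u1 : Fin 3, u0 ≠ u1 → ∀ u2, u1 ≠ u2 → ∀ u3, u2 ≠ u3 → ∀ u4, u3 ≠ u4 ∧ u0 ≠ u4 →
    ∀ w0, w0 ≠ u1 ∧ w0 ≠ u4 → ∀ w1, w1 ≠ u0 ∧ w1 ≠ u2 → ∀ w2, w2 ≠ u1 ∧ w2 ≠ u3 →
    ∀ w3, w3 ≠ u2 ∧ w3 ≠ u4 → ∀ w4, w4 ≠ u3 ∧ w4 ≠ u0 →
    ∀ z, w0 ≠ z ∧ w1 ≠ z ∧ w2 ≠ z ∧ w3 ≠ z → w4 = z := by decide

lemma gr_col : ¬ gr.Colorable 3 := by
  rintro ⟨C⟩
  have v : ∀ i j, j ∈ grL i → C i ≠ C j := fun i j h => C.valid (show gr.Adj i j from h)
  exact v 9 10 (by decide) (gr_aux (C 0) (C 1) (v _ _ (by decide)) (C 2) (v _ _ (by decide)) (C 3)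
    (v _ _ (by decide)) (C 4) ⟨v _ _ (by decide), v _ _ (by decide)⟩
    (C 5) ⟨v _ _ (by decide), v _ _ (by decide)⟩ (C 6) ⟨v _ _ (by decide), v _ _ (by decide)⟩
    (C 7) ⟨v _ _ (by decide), v _ _ (by decide)⟩ (C 8) ⟨v _ _ (by decide), v _ _ (by decide)⟩
    (C 9) ⟨v _ _ (by decide), v _ _ (by decide)⟩
    (C 10) ⟨v _ _ (by decide), v _ _ (by decide), v _ _ (by decide), v _ _ (by decide)⟩)

lemma M32 : M 3 2 = 3 := by
  apply le_antisymm
  · have := M_better 0 0
    simp at this
    omega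
  · by_contra h
    push Not at h
    have h2 : c5.Colorable (M 3 2) := M_valid 1 2 _ c5 c5_free
    exact c5_col (h2.mono (by omega))

lemma M33 : M 3 3 = 4 := by
  apply le_antisymm
  · have := M_better 0 1
    simp at this
    omega
  · by_contra h
    push Not at h
    have h2 : gr.Colorable (M 3 3) := M_valid 1 3 _ gr gr_free
    exact gr_col (h2.mono (by omega))

lemma M_log (j ℓ : ℕ) (hℓ : 16 ≤ ℓ) :
    M (j + 3) ℓ * Nat.log 16 ℓ ≤ (100 + 2 * (j + 3)) * ℓ ^ (j + 1) := by
  set h := Nat.log 16 ℓ with hh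
  set t := Nat.log 4 ℓ with ht
  have hh1 : 1 ≤ h := by
    rw [hh]
    exact Nat.le_log_of_pow_le (by norm_num) (by simpa using hℓ)
  have hpow : 16 ^ h ≤ ℓ := Nat.pow_log_le_self 16 (by omega)
  have hm1 : 4 ^ t ≤ ℓ := Nat.pow_log_le_self 4 (by omega)
  have hm2 : ℓ < 4 ^ (t + 1) := Nat.lt_pow_succ_log_self (by norm_num) ℓ
  have hht : 2 * h ≤ t := by
    rw [ht]
    refine Nat.le_log_of_pow_le (by norm_num) ?_
    rw [pow_mul]
    simpa using hpow
  have hhm : h ≤ ℓ := Nat.log_le_self 16 ℓ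
  have hM : M (j + 3) ℓ ≤ ⌊(106 + 2 * j : ℝ) * ℓ ^ (j + 1) / h⌋₊ := by
    refine M_le ?_
    intro V _ G hG
    classical
    have := Fintype.ofFinite V
    exact colorable_of_Col (log_col ℓ h t hh1 hℓ hm1 hm2 hht hhm j Finset.univ
      (NoP_of_free hG.1 _) (KF_of_cliqueFree hG.2 _))
  have hhR : (0 : ℝ) < h := by exact_mod_cast hh1
  have h1 : (M (j + 3) ℓ : ℝ) ≤ (106 + 2 * j : ℝ) * ℓ ^ (j + 1) / h := by
    refine le_trans (by exact_mod_cast hM) (Nat.floor_le (by positivity))
  rw [le_div_iff₀ hhR] at h1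
  have h2 : ((M (j + 3) ℓ * h : ℕ) : ℝ) ≤ (((100 + 2 * (j + 3)) * ℓ ^ (j + 1) : ℕ) : ℝ) := by
    push_cast
    refine h1.trans (le_of_eq ?_)
    ring
  exact_mod_cast h2

theorem result :
    (∀ k ℓ : ℕ, 3 ≤ k →
      (∀ (V : Type) [Finite V] (G : SimpleGraph V), Free k ℓ G → G.Colorable (M k ℓ)) ∧
      M k ℓ ≤ (ℓ + k - 1).choose (k - 2) ∧
      (2 ≤ ℓ → M k ℓ + (ℓ + k - 5).choose (k - 3) ≤ (ℓ + k - 1).choose (k - 2)) ∧
      (16 ≤ ℓ → M k ℓ * Nat.log 16 ℓ ≤ (100 + 2 * k) * ℓ ^ (k - 2)) ∧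
      (1 ≤ ℓ → F k (ℓ + 1) ≤ M k ℓ ∧ M k ℓ ≤ F k (ℓ - 1) + 4 * M (k - 1) ℓ)) ∧
    (∀ k m : ℕ, 3 ≤ k → ∀ (V : Type) [Finite V] (G : SimpleGraph V), G.CliqueFree k →
      (∀ I : Finset V, G.IsIndepSet (I : Set V) → I.card ≤ m) → G.Colorable (F k m)) ∧
    (∀ ℓ : ℕ, M 2 ℓ = 1) ∧ M 3 2 = 3 ∧ M 3 3 = 4 := by
  refine ⟨?_, ?_, M_two, M32, M33⟩
  · intro k ℓ hk
    obtain ⟨K, rfl⟩ : ∃ K, k = K + 3 := ⟨k - 3, by omega⟩
    refine ⟨M_valid (K + 1) ℓ, ?_, ?_, ?_, ?_⟩
    · have h := M_binom (K + 1) ℓ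
      have e1 : ℓ + (K + 3) - 1 = ℓ + (K + 1) + 1 := by omega
      have e2 : K + 3 - 2 = K + 1 := by omega
      rw [e1, e2]
      exact h
    · intro hℓ
      obtain ⟨m, rfl⟩ : ∃ m, ℓ = m + 2 := ⟨ℓ - 2, by omega⟩
      have h := M_better K m
      have e1 : m + 2 + (K + 3) - 1 = m + K + 4 := by omega
      have e2 : K + 3 - 2 = K + 1 := by omega
      have e3 : m + 2 + (K + 3) - 5 = m + K := by omega
      have e4 : K + 3 - 3 = K := by omega
      rw [e1, e2, e3, e4]
      exact h
    · intro hℓ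
      exact M_log K ℓ hℓ
    · intro hℓ
      exact sandwich K ℓ hℓ
  · intro k m hk V _ G hG hI
    obtain ⟨K, rfl⟩ : ∃ K, k = K + 3 := ⟨k - 3, by omega⟩
    exact F_valid (K + 1) m V G hG hI

end Pool.Agent.Results.MP_6383d0_co.ValuesAndGrowth
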